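import Pool.Agent.X37.RD.Gap

/-!
# Exact patterns of almost primes: the main theorem
-/

set_option autoImplicit false

namespace Pool.Agent.X37.RD

open Polynomial Finset Filter
open Pool.Agent.Y816.PD
open Pool.Agent.H646 (rat)

lemma rat_nonneg1 (n : ℕ) : 0 ≤ rat n := by unfold rat; positivity

lemma sum_rat (k : ℕ) (hk : 1 ≤ k) : ∃ C : ℝ, 0 < C ∧ ∀ T : Finset ℕ, T.card = k → ∀ L : ℕ, (∀ t ∈ T, t ≤ L) →
    ∑ s ∈ (range (L + 1)).filter (fun s => s ∉ T), ∏ t ∈ T, rat ((s : ℤ) - t).natAbs ≤ C * L := by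
  obtain ⟨C, hC, h⟩ := Pool.Agent.H646.MomentM.rat_moment k
  refine ⟨2 * k * C, by positivity, fun T hT L hL => ?_⟩
  have hTne : T.Nonempty := by rw [← card_pos]; omega
  have h1 : ∀ s : ℕ, ∏ t ∈ T, rat ((s : ℤ) - t).natAbs ≤ ∑ t ∈ T, rat ((s : ℤ) - t).natAbs ^ k := by
    intro s
    obtain ⟨t₀, ht₀, hmax⟩ := exists_max_image T (fun t : ℕ => rat ((s : ℤ) - t).natAbs) hTne
    calc ∏ t ∈ T, rat ((s : ℤ) - t).natAbs ≤ ∏ _t ∈ T, rat ((s : ℤ) - t₀).natAbs :=
          Finset.prod_le_prod (fun _ _ => rat_nonneg1 _) hmax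
      _ = rat ((s : ℤ) - t₀).natAbs ^ k := by rw [prod_const, hT]
      _ ≤ ∑ t ∈ T, rat ((s : ℤ) - t).natAbs ^ k :=
          single_le_sum (f := fun t : ℕ => rat ((s : ℤ) - t).natAbs ^ k)
            (fun _ _ => pow_nonneg (rat_nonneg1 _) _) ht₀
  have h2 : ∀ t ∈ T, ∑ s ∈ (range (L + 1)).filter (fun s => s ∉ T), rat ((s : ℤ) - t).natAbs ^ k ≤
      2 * (C * L) := by
    intro t ht
    have hsub : (range (L + 1)).filter (fun s => s ∉ T) ⊆ (range t) ∪ (Ioc t L) := by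
      intro s hs
      rw [mem_filter, mem_range] at hs
      rw [mem_union, mem_range, mem_Ioc]
      have : s ≠ t := fun h => hs.2 (h ▸ ht)
      omega
    have hdis : Disjoint (range t) (Ioc t L) := by
      rw [disjoint_left]
      intro s hs hs2
      rw [mem_range] at hs
      rw [mem_Ioc] at hs2
      omega
    have hA : ∑ s ∈ range t, rat ((s : ℤ) - t).natAbs ^ k ≤ C * L := by
      have e1 : ∑ s ∈ range t, rat ((s : ℤ) - t).natAbs ^ k = ∑ e ∈ (range t).image (fun s => t - s), rat e ^ k := by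
        rw [sum_image]
        · apply sum_congr rfl
          intro s hs
          rw [mem_range] at hs
          congr 2
          omega
        · intro a ha c hc hac
          rw [mem_coe, mem_range] at ha hc
          simp only at hac
          omega
      rw [e1]
      refine le_trans (sum_le_sum_of_subset_of_nonneg ?_ fun _ _ _ => pow_nonneg (rat_nonneg1 _) _) (h L)
      intro e he
      rw [mem_image] at he
      obtain ⟨s, hs, rfl⟩ := he
      rw [mem_range] at hs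
      rw [mem_Icc]
      have := hL t ht
      omega
    have hB : ∑ s ∈ Ioc t L, rat ((s : ℤ) - t).natAbs ^ k ≤ C * L := by
      have e1 : ∑ s ∈ Ioc t L, rat ((s : ℤ) - t).natAbs ^ k = ∑ e ∈ (Ioc t L).image (fun s => s - t), rat e ^ k := by
        rw [sum_image]
        · apply sum_congr rfl
          intro s hs
          rw [mem_Ioc] at hs
          congr 2
          omega
        · intro a ha c hc hac
          rw [mem_coe, mem_Ioc] at ha hc
          simp only at hac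
          omega
      rw [e1]
      refine le_trans (sum_le_sum_of_subset_of_nonneg ?_ fun _ _ _ => pow_nonneg (rat_nonneg1 _) _) (h L)
      intro e he
      rw [mem_image] at he
      obtain ⟨s, hs, rfl⟩ := he
      rw [mem_Ioc] at hs
      rw [mem_Icc]
      omega
    calc ∑ s ∈ (range (L + 1)).filter (fun s => s ∉ T), rat ((s : ℤ) - t).natAbs ^ k
        ≤ ∑ s ∈ (range t) ∪ (Ioc t L), rat ((s : ℤ) - t).natAbs ^ k :=
          sum_le_sum_of_subset_of_nonneg hsub fun _ _ _ => pow_nonneg (rat_nonneg1 _) _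
      _ = ∑ s ∈ range t, rat ((s : ℤ) - t).natAbs ^ k + ∑ s ∈ Ioc t L, rat ((s : ℤ) - t).natAbs ^ k :=
          sum_union hdis
      _ ≤ 2 * (C * L) := by linarith
  calc ∑ s ∈ (range (L + 1)).filter (fun s => s ∉ T), ∏ t ∈ T, rat ((s : ℤ) - t).natAbs
      ≤ ∑ s ∈ (range (L + 1)).filter (fun s => s ∉ T), ∑ t ∈ T, rat ((s : ℤ) - t).natAbs ^ k :=
        sum_le_sum fun s _ => h1 s
    _ = ∑ t ∈ T, ∑ s ∈ (range (L + 1)).filter (fun s => s ∉ T), rat ((s : ℤ) - t).natAbs ^ k := Finset.sum_comm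
    _ ≤ ∑ _t ∈ T, 2 * (C * L) := sum_le_sum h2
    _ = 2 * k * C * L := by
        rw [sum_const, hT, nsmul_eq_mul]
        ring

lemma DC_eq {b K u v : ℕ} {A : ℕ → Finset ℕ} {S : Set ℕ} [DecidablePred (· ∈ S)] (hS : ∀ m ∈ S, u < m ∧ m < v) :
    DC b K A S = ((Ioo u v).filter (fun m => m ∈ S ∧ ∀ i < K, m / b ^ i % b ∈ A i)).card := by
  unfold DC
  rw [← Set.ncard_coe_finset]
  congr 1
  ext m
  simp only [Set.mem_setOf_eq, mem_coe, mem_filter, mem_Ioo]
  constructor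
  · rintro ⟨h1, h2⟩
    exact ⟨hS m h1, h1, h2⟩
  · rintro ⟨-, h1, h2⟩
    exact ⟨h1, h2⟩

lemma DC_union {b K u v : ℕ} {A : ℕ → Finset ℕ} {S G : Set ℕ} {I : Finset ℕ} {B : ℕ → Set ℕ}
    (hS : ∀ m ∈ S, u < m ∧ m < v) (hG : ∀ m ∈ G, u < m ∧ m < v) (hB : ∀ s ∈ I, ∀ m ∈ B s, u < m ∧ m < v)
    (h : ∀ m ∈ S, m ∈ G ∨ ∃ s ∈ I, m ∈ B s) : DC b K A S ≤ DC b K A G + ∑ s ∈ I, DC b K A (B s) := by
  classical
  rw [DC_eq hS, DC_eq hG]
  have hsum : ∑ s ∈ I, DC b K A (B s) =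
      ∑ s ∈ I, ((Ioo u v).filter (fun m => m ∈ B s ∧ ∀ i < K, m / b ^ i % b ∈ A i)).card := by
    apply sum_congr rfl
    intro s hs
    exact DC_eq (hB s hs)
  rw [hsum]
  refine le_trans (card_le_card ?_) ((card_union_le _ _).trans (Nat.add_le_add_left card_biUnion_le _))
  intro m hm
  rw [mem_filter] at hm
  rw [mem_union, mem_biUnion]
  rcases h m hm.2.1 with h1 | ⟨s, hs, h1⟩
  · left
    rw [mem_filter]
    exact ⟨hm.1, h1, hm.2.2⟩
  · right
    refine ⟨s, hs, ?_⟩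
    rw [mem_filter]
    exact ⟨hm.1, h1, hm.2.2⟩

lemma WG_HP_nonneg (T : Finset ℕ) (z : ℕ) : 0 ≤ WG (fun j : ℕ => (HP T).eval (j : ℤ)) z := WG_nonneg _ _

lemma HP_size {T : Finset ℕ} {k E x y m : ℕ} (hk : T.card ≤ k) (hy : 5 ≤ y) (hx : x ≤ y ^ E) (hm : m < x + 2 * y)
    (hT : ∀ t ∈ T, t ≤ y) : ((HP T).eval (m : ℤ)).natAbs ≤ y ^ ((E + 2) * k) := by
  rw [HP_eval, Int.natAbs_natCast]
  calc ∏ t ∈ T, (m + t) ≤ ∏ _t ∈ T, y ^ (E + 2) := by
        apply Finset.prod_le_prod (fun _ _ => Nat.zero_le _)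
        intro t ht
        have h1 := hT t ht
        obtain ⟨Z, hZ⟩ : ∃ Z, y ^ E = Z + 1 := ⟨y ^ E - 1, by
          have : 1 ≤ y ^ E := Nat.one_le_pow _ _ (by omega)
          omega⟩
        rw [pow_add, hZ]
        rw [hZ] at hx
        have e2 : 4 * y + 1 ≤ y ^ 2 := by nlinarith
        have e3 : Z * 1 ≤ Z * y ^ 2 := Nat.mul_le_mul_left Z (by nlinarith)
        have e4 : (Z + 1) * y ^ 2 = Z * y ^ 2 + y ^ 2 := by ring
        omega
    _ = (y ^ (E + 2)) ^ T.card := prod_const _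
    _ ≤ (y ^ (E + 2)) ^ k := Nat.pow_le_pow_right (Nat.one_le_pow _ _ (by omega)) hk
    _ = y ^ ((E + 2) * k) := (pow_mul _ _ _).symm

lemma HP_adm {T : Finset ℕ} (h : ∀ p : ℕ, p.Prime → ∃ a : ℕ, ∀ t ∈ T, ¬ p ∣ a + t) (p : ℕ) (hp : p.Prime) :
    ∃ m : ℕ, ¬ (p : ℤ) ∣ (HP T).eval (m : ℤ) := by
  obtain ⟨a, ha⟩ := h p hp
  refine ⟨a, fun hd => ?_⟩
  obtain ⟨t, ht, h1⟩ := (HP_dvd hp).1 hd
  exact ha t ht h1

/-- a set which is not admissible: a small prime divides one of the `n + t` -/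
lemma not_adm {T : Finset ℕ} (h : ¬ ∀ p : ℕ, p.Prime → ∃ a : ℕ, ∀ t ∈ T, ¬ p ∣ a + t) :
    ∃ p : ℕ, p.Prime ∧ p ≤ T.card ∧ ∀ n : ℕ, ∃ t ∈ T, p ∣ n + t := by
  classical
  push Not at h
  obtain ⟨p, hp, h⟩ := h
  refine ⟨p, hp, ?_, h⟩
  -- the classes are hit
  have h1 : range p ⊆ T.image (fun t => (t * (p - 1)) % p) := by
    intro m hm
    rw [mem_range] at hm
    obtain ⟨t, ht, hd⟩ := h m
    rw [mem_image]
    refine ⟨t, ht, ?_⟩
    have h2 : t * (p - 1) ≡ m [MOD p] := by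
      have h3 : t * (p - 1) + t ≡ m + t [MOD p] := by
        have h4 : t * (p - 1) + t = t * p := by
          obtain ⟨q, rfl⟩ : ∃ q, p = q + 1 := ⟨p - 1, by have := hp.pos; omega⟩
          rw [Nat.add_sub_cancel]
          ring
        rw [h4]
        exact ((Nat.modEq_zero_iff_dvd).2 (Dvd.intro_left t rfl)).trans ((Nat.modEq_zero_iff_dvd).2 hd).symm
      exact Nat.ModEq.add_right_cancel' t h3
    have h3 : t * (p - 1) % p = m % p := h2
    rw [h3, Nat.mod_eq_of_lt hm]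
  calc p = (range p).card := (card_range p).symm
    _ ≤ (T.image (fun t => (t * (p - 1)) % p)).card := card_le_card h1
    _ ≤ T.card := card_image_le

/-- **Main theorem.** -/
theorem gap_ap (k E : ℕ) (hk : 1 ≤ k) : ∃ c : ℝ, 0 < c ∧ ∃ r0 : ℕ, 2 ≤ r0 ∧ ∀ r : ℕ, r0 ≤ r → ∀ b : ℕ, 2 ≤ b →
    ∃ κ δ C : ℝ, 0 < κ ∧ 0 < δ ∧ 0 < C ∧ ∀ᶠ y : ℕ in atTop, ∀ T : Finset ℕ, T.card = k →
      (∀ p : ℕ, p.Prime → ∃ a : ℕ, ∀ t ∈ T, ¬ p ∣ a + t) → ∀ x : ℕ, x ≤ y ^ E → ∀ K : ℕ, K = Nat.log b (y / 3) →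
      (∀ t ∈ T, (t : ℝ) ≤ δ * K) →
      κ / (K : ℝ) ^ k ≤ WG (fun j : ℕ => (HP T).eval (j : ℤ)) (b ^ K) ∧
      ∀ A : ℕ → Finset ℕ, (∀ i < K, A i ⊆ range b) → (b : ℝ) ^ K ≤ Real.exp (c * K) * NA K A →
        ((∃ d ∈ A 0, ∀ t ∈ T, (d + t).Coprime b) →
          κ * NA K A * WG (fun j : ℕ => (HP T).eval (j : ℤ)) (b ^ K) ≤ DC b K A {n | (x < n ∧ n < x + y) ∧
            (∀ t ∈ T, (∀ p : ℕ, p.Prime → p ∣ n + t → b ^ K < p ^ r) ∧ (n + t).primeFactorsList.length ≤ r) ∧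
            ∀ s : ℕ, (s : ℝ) ≤ δ * K → s ∉ T → ∃ p : ℕ, p.Prime ∧ p ∣ n + s ∧ p ^ r ≤ b ^ K}) ∧
        (DC b K A {n | (x < n ∧ n < x + y) ∧ ∀ t ∈ T, (n + t).Prime} : ℝ) ≤
          C * NA K A * WG (fun j : ℕ => (HP T).eval (j : ℤ)) (b ^ K) := by
  classical
  obtain ⟨c₂, hc₂, r₂, hr₂, h₂⟩ := int_poly k ((E + 2) * (k + 1)) hk
  obtain ⟨c₃, hc₃, r₃, hr₃, h₃⟩ := int_poly (k + 1) ((E + 2) * (k + 1)) (by omega)
  obtain ⟨Cr, hCr, hrat⟩ := sum_rat k hk
  refine ⟨min c₂ c₃, lt_min hc₂ hc₃, max r₂ r₃, hr₂.trans (le_max_left _ _), fun r hr b hb => ?_⟩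
  obtain ⟨κ₂, C₂, hκ₂, hC₂, e₂⟩ := h₂ r ((le_max_left _ _).trans hr) b hb
  obtain ⟨κ₃, C₃, hκ₃, hC₃, e₃⟩ := h₃ r ((le_max_right _ _).trans hr) b hb
  have h2r : 2 ≤ r := hr₂.trans ((le_max_left _ _).trans hr)
  obtain ⟨v, hv, hlow⟩ := WG_poly k b hb
  obtain ⟨v₁, Cv, hv₁, hCv, hM⟩ := WG_bounds {0}
    (fun p hp => ⟨1, fun h hh => by
      rw [mem_singleton] at hh
      subst hh
      intro hd
      exact hp.one_lt.ne' (Nat.dvd_one.1 hd)⟩) 1 (by decide) b hb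
  obtain ⟨K₀, hK₀⟩ := eventually_atTop.1 (hlow.and hM)
  obtain ⟨δ, hδ⟩ : ∃ δ : ℝ, δ = min 1 (κ₂ / (2 * (C₃ * (Cv * Cr)))) := ⟨_, rfl⟩
  have hδ0 : 0 < δ := by rw [hδ]; exact lt_min one_pos (by positivity)
  have hδ1 : δ ≤ 1 := by rw [hδ]; exact min_le_left _ _
  have hδ2 : C₃ * (Cv * Cr) * δ ≤ κ₂ / 2 := by
    have h4 : δ ≤ κ₂ / (2 * (C₃ * (Cv * Cr))) := by rw [hδ]; exact min_le_right _ _
    calc C₃ * (Cv * Cr) * δ ≤ C₃ * (Cv * Cr) * (κ₂ / (2 * (C₃ * (Cv * Cr)))) :=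
          mul_le_mul_of_nonneg_left h4 (by positivity)
      _ = κ₂ / 2 := by field_simp
  refine ⟨min (κ₂ / 2) v, δ, C₂, lt_min (by positivity) hv, hδ0, hC₂, ?_⟩
  filter_upwards [e₂, e₃, eventually_ge_atTop (3 * b ^ (K₀ + (k + 2) ^ r + 1 + 1)), eventually_ge_atTop 5] with
    y hy₂ hy₃ hyK hy5 T hTk hadm x hx K hK hTle
  obtain ⟨hKK, hb1, hb2⟩ := log_three hb (K₀ + (k + 2) ^ r + 1 + 1) hyK hK
  have hb0 : 0 < b := by omega
  have hbK0 : 0 < b ^ K := by positivity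
  have hKpos : (0 : ℝ) < K := by
    have : 0 < K := by omega
    exact_mod_cast this
  have hKb : K < b ^ K := Nat.lt_pow_self (by omega)
  obtain ⟨hlowK, hMK⟩ := hK₀ K (by omega)
  have hPadm := HP_adm hadm
  have hPdeg : (HP T).natDegree ≤ k := hTk ▸ HP_deg T
  obtain ⟨W, hW⟩ : ∃ W, W = WG (fun j : ℕ => (HP T).eval (j : ℤ)) (b ^ K) := ⟨_, rfl⟩
  have hW1 : v / (K : ℝ) ^ k ≤ W := by rw [hW]; exact hlowK _ hPdeg hPadm
  have hW0 : 0 ≤ W := le_trans (by positivity) hW1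
  rw [← hW]
  refine ⟨(div_le_div_of_nonneg_right (min_le_right _ _) (by positivity)).trans hW1, ?_⟩
  have hle : ∀ s : ℕ, (s : ℝ) ≤ δ * K → s ≤ y := by
    intro s hs
    have h4 : (s : ℝ) ≤ K := hs.trans (by nlinarith)
    have h5 : s ≤ K := by exact_mod_cast h4
    omega
  intro A hA hprod
  have hNA := NA_nonneg K A
  have hprod₂ : (b : ℝ) ^ K ≤ Real.exp (c₂ * K) * NA K A :=
    hprod.trans (mul_le_mul_of_nonneg_right (Real.exp_le_exp.2 (mul_le_mul_of_nonneg_right (min_le_left _ _)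
      hKpos.le)) hNA)
  have hprod₃ : (b : ℝ) ^ K ≤ Real.exp (c₃ * K) * NA K A :=
    hprod.trans (mul_le_mul_of_nonneg_right (Real.exp_le_exp.2 (mul_le_mul_of_nonneg_right (min_le_right _ _)
      hKpos.le)) hNA)
  have hpowE : y ^ ((E + 2) * k) ≤ y ^ ((E + 2) * (k + 1)) :=
    Nat.pow_le_pow_right (by omega) (Nat.mul_le_mul_left _ (by omega))
  obtain ⟨hlo, hup⟩ := hy₂ (HP T) hPdeg hPadm x (fun m hm =>
    (HP_size hTk.le hy5 hx hm (fun t ht => hle t (hTle t ht))).trans hpowE) K hK A hA hprod₂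
  rw [← hW] at hlo hup
  constructor
  · rintro ⟨d, hd, hcop⟩
    have h4 := hlo ⟨d, hd, by
      rw [HP_eval, Int.natAbs_natCast]
      exact Nat.Coprime.prod_left fun t ht => hcop t ht⟩
    -- the other positions
    obtain ⟨H, hH⟩ : ∃ H : ℕ, H = ⌊δ * K⌋₊ := ⟨_, rfl⟩
    have hHle : ∀ s : ℕ, (s : ℝ) ≤ δ * K ↔ s ≤ H := by
      intro s
      rw [hH, Nat.le_floor_iff (by positivity)]
    obtain ⟨I, hI⟩ : ∃ I : Finset ℕ, I = (range (H + 1)).filter (fun s => s ∉ T) := ⟨_, rfl⟩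
    obtain ⟨B, hB⟩ : ∃ B : ℕ → Set ℕ, B = fun s => {n | (x < n ∧ n < x + y) ∧ ∀ t ∈ insert s T,
      ∀ p : ℕ, p.Prime → p ∣ n + t → b ^ K < p ^ r} := ⟨_, rfl⟩
    have hun := DC_union (b := b) (K := K) (A := A) (u := x) (v := x + y) (S := PA (HP T) x y r (b ^ K))
      (G := {n | (x < n ∧ n < x + y) ∧
            (∀ t ∈ T, (∀ p : ℕ, p.Prime → p ∣ n + t → b ^ K < p ^ r) ∧ (n + t).primeFactorsList.length ≤ r) ∧
            ∀ s : ℕ, (s : ℝ) ≤ δ * K → s ∉ T → ∃ p : ℕ, p.Prime ∧ p ∣ n + s ∧ p ^ r ≤ b ^ K}) (I := I) (B := B)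
      (fun m hm => hm.1) (fun m hm => hm.1) (fun s _ m hm => by rw [hB] at hm; exact hm.1) (by
        rintro m ⟨hm1, hm2, hm3⟩
        have hm2' : ∀ t ∈ T, ∀ p : ℕ, p.Prime → p ∣ m + t → b ^ K < p ^ r := fun t ht p hp hpd =>
          hm2 p hp ((HP_dvd hp).2 ⟨t, ht, hpd⟩)
        have hlen : ∀ t ∈ T, (m + t).primeFactorsList.length ≤ r := by
          intro t ht
          rw [HP_eval, Int.natAbs_natCast] at hm3
          have hdvd : (m + t) ∣ ∏ t ∈ T, (m + t) := dvd_prod_of_mem _ ht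
          have hne : ∏ t ∈ T, (m + t) ≠ 0 := by
            rw [prod_ne_zero_iff]
            intro j _
            omega
          exact (Nat.primeFactorsList_sublist_of_dvd hdvd hne).length_le.trans hm3
        by_cases hbad : ∃ s ∈ I, ∀ p : ℕ, p.Prime → p ∣ m + s → b ^ K < p ^ r
        · right
          obtain ⟨s, hs, hs2⟩ := hbad
          refine ⟨s, hs, ?_⟩
          rw [hB]
          refine ⟨hm1, fun t ht => ?_⟩
          rw [mem_insert] at ht
          rcases ht with rfl | ht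
          · exact hs2
          · exact hm2' t ht
        · left
          refine ⟨hm1, fun t ht => ⟨hm2' t ht, hlen t ht⟩, fun s hs hsT => ?_⟩
          push Not at hbad
          exact hbad s (by rw [hI, mem_filter, mem_range]; exact ⟨by have := (hHle s).1 hs; omega, hsT⟩))
    have hBs : ∀ s ∈ I, (DC b K A (B s) : ℝ) ≤ C₃ * NA K A * (W * (Cv / K) * ∏ t ∈ T, rat ((s : ℤ) - t).natAbs) := by
      intro s hs
      rw [hI, mem_filter, mem_range] at hs
      obtain ⟨hsH, hsT⟩ := hs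
      have hs' : (s : ℝ) ≤ δ * K := (hHle s).2 (by omega)
      have hrp : 0 ≤ ∏ t ∈ T, rat ((s : ℤ) - t).natAbs := prod_nonneg fun _ _ => rat_nonneg1 _
      by_cases hadm' : ∀ p : ℕ, p.Prime → ∃ a : ℕ, ∀ t ∈ insert s T, ¬ p ∣ a + t
      · have hcard : (insert s T).card = k + 1 := by rw [card_insert_of_notMem hsT, hTk]
        obtain ⟨-, hup₃⟩ := hy₃ (HP (insert s T)) (hcard ▸ HP_deg _) (HP_adm hadm') x (fun m hm =>
          HP_size hcard.le hy5 hx hm (fun t ht => by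
            rw [mem_insert] at ht
            rcases ht with rfl | ht
            · exact hle _ hs'
            · exact hle t (hTle t ht))) K hK A hA hprod₃
        have h5 : (DC b K A (B s) : ℝ) ≤ DC b K A (PR (HP (insert s T)) x y r (b ^ K)) := by
          refine Nat.cast_le.2 ?_
          unfold DC
          apply Set.ncard_le_ncard
          · rintro m ⟨hm1, hm2⟩
            rw [hB] at hm1
            refine ⟨⟨hm1.1, fun p hp hpd => ?_⟩, hm2⟩
            obtain ⟨t, ht, hd⟩ := (HP_dvd hp).1 hpd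
            exact (Nat.mod_lt _ hbK0).trans (hm1.2 t ht p hp hd)
          · apply (finite_toSet (Ioo x (x + y))).subset
            rintro m ⟨⟨hm, -⟩, -⟩
            rw [mem_coe, mem_Ioo]
            exact hm
        refine h5.trans (hup₃.trans ?_)
        apply mul_le_mul_of_nonneg_left _ (by positivity)
        refine (WG_insert T s (b ^ K) hsT).trans ?_
        rw [← hW]
        have h6 : ∏ p ∈ (Icc 1 (b ^ K)).filter Nat.Prime, (1 - 1 / (p : ℝ)) ≤ Cv / K := by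
          have h7 := (hMK 0).2
          rw [pow_one] at h7
          refine le_trans (le_of_eq ?_) h7
          unfold WG
          apply prod_congr rfl
          intro p hp
          rw [mem_filter] at hp
          have hset : (range p).filter (fun n : ℕ => (p : ℤ) ∣ TP {0} 0 n) = {0} := by
            ext n
            rw [mem_filter, mem_range, mem_singleton, TP_dvd _ _ _ hp.2]
            constructor
            · rintro ⟨h1, h, hh, h2⟩
              rw [mem_singleton] at hh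
              subst hh
              rw [zero_add, add_zero] at h2
              exact Nat.eq_zero_of_dvd_of_lt h2 h1
            · rintro rfl
              exact ⟨hp.2.pos, 0, mem_singleton_self _, by simp⟩
          have hc : ((range p).filter (fun n : ℕ => (p : ℤ) ∣ TP {0} 0 n)).card = 1 := by
            rw [hset, card_singleton]
          have hc' : (((range p).filter (fun n : ℕ => (p : ℤ) ∣ TP {0} 0 n)).card : ℝ) = 1 := by
            rw [hc, Nat.cast_one]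
          rw [← hc']
        exact mul_le_mul_of_nonneg_right (mul_le_mul_of_nonneg_left h6 hW0) hrp
      · obtain ⟨p, hp, hpk, hpn⟩ := not_adm hadm'
        have hempty : B s = ∅ := by
          rw [Set.eq_empty_iff_forall_notMem]
          intro m hm
          rw [hB] at hm
          obtain ⟨t, ht, hd⟩ := hpn m
          have h5 := hm.2 t ht p hp hd
          have h6 : p ^ r ≤ (k + 2) ^ r := by
            apply Nat.pow_le_pow_left
            have := card_insert_le s T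
            omega
          omega
        have h7 : DC b K A (B s) = 0 := by
          unfold DC
          rw [hempty]
          simp
        rw [h7, Nat.cast_zero]
        positivity
    have hsum : ∑ s ∈ I, (DC b K A (B s) : ℝ) ≤ κ₂ / 2 * NA K A * W := by
      have h5 := hrat T hTk H (fun t ht => (hHle t).1 (hTle t ht))
      rw [← hI] at h5
      have h6 : (H : ℝ) ≤ δ * K := (hHle H).2 le_rfl
      calc ∑ s ∈ I, (DC b K A (B s) : ℝ) ≤
          ∑ s ∈ I, C₃ * NA K A * (W * (Cv / K) * ∏ t ∈ T, rat ((s : ℤ) - t).natAbs) := sum_le_sum hBs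
        _ = C₃ * NA K A * (W * (Cv / K)) * ∑ s ∈ I, ∏ t ∈ T, rat ((s : ℤ) - t).natAbs := by
            rw [mul_sum]
            apply sum_congr rfl
            intro s _
            ring
        _ ≤ C₃ * NA K A * (W * (Cv / K)) * (Cr * (δ * K)) := by
            apply mul_le_mul_of_nonneg_left _ (by positivity)
            exact h5.trans (mul_le_mul_of_nonneg_left h6 hCr.le)
        _ = (C₃ * (Cv * Cr) * δ) * NA K A * W := by field_simp
        _ ≤ κ₂ / 2 * NA K A * W :=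
            mul_le_mul_of_nonneg_right (mul_le_mul_of_nonneg_right hδ2 hNA) hW0
    have hunR : (DC b K A (PA (HP T) x y r (b ^ K)) : ℝ) ≤ (DC b K A {n | (x < n ∧ n < x + y) ∧
            (∀ t ∈ T, (∀ p : ℕ, p.Prime → p ∣ n + t → b ^ K < p ^ r) ∧ (n + t).primeFactorsList.length ≤ r) ∧
            ∀ s : ℕ, (s : ℝ) ≤ δ * K → s ∉ T → ∃ p : ℕ, p.Prime ∧ p ∣ n + s ∧ p ^ r ≤ b ^ K} : ℝ) +
        ∑ s ∈ I, (DC b K A (B s) : ℝ) := by exact_mod_cast hun
    have h8 : min (κ₂ / 2) v * NA K A * W ≤ κ₂ / 2 * NA K A * W :=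
      mul_le_mul_of_nonneg_right (mul_le_mul_of_nonneg_right (min_le_left _ _) hNA) hW0
    linarith
  · refine le_trans (Nat.cast_le.2 ?_) hup
    unfold DC
    apply Set.ncard_le_ncard
    · rintro m ⟨⟨hm1, hm2⟩, hm3⟩
      refine ⟨⟨hm1, fun p hp hpd => ?_⟩, hm3⟩
      obtain ⟨t, ht, hd⟩ := (HP_dvd hp).1 hpd
      rw [(Nat.prime_dvd_prime_iff_eq hp (hm2 t ht)).1 hd]
      have h9 : m % b ^ K ≤ m := Nat.mod_le _ _
      exact lt_of_le_of_lt (h9.trans (Nat.le_add_right m t)) (lt_self_pow₀ (hm2 t ht).one_lt (by omega))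
    · apply (finite_toSet (Ioo x (x + y))).subset
      rintro m ⟨⟨hm, -⟩, -⟩
      rw [mem_coe, mem_Ioo]
      exact hm

end Pool.Agent.X37.RD
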