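import Pool.Agent.X37.RD.Dil

/-!
# Lower bound for the product of `1 - ω(p) / p`
-/

set_option autoImplicit false

namespace Pool.Agent.X37.RD

open Polynomial Finset Filter
open Pool.Agent.Y816.PD
open Pool.Agent.H373R2.T7 Pool.Agent.W123.RP Pool.Agent.W123.RU.Poly

/-- `1 - k / p` against `(1 - 1 / p) ^ k` -/
lemma one_sub_div_ge {k p : ℕ} (hp : p.Prime) (h : k ≤ p) :
    (1 - (k : ℝ) ^ 2 * ((p : ℝ) ^ 2)⁻¹) * (1 - 1 / (p : ℝ)) ^ k ≤ 1 - (k : ℝ) / p := by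
  have h2 : (2 : ℝ) ≤ p := by exact_mod_cast hp.two_le
  have hp0 : (0 : ℝ) < p := by linarith
  have h1 := one_sub_pos' hp
  have h3 := one_add_mul_le_pow (a := 1 / (p : ℝ)) (by
    have : (0 : ℝ) ≤ 1 / (p : ℝ) := by positivity
    linarith) k
  have h5 : (k : ℝ) / p ≤ 1 := by
    rw [div_le_one hp0]
    exact_mod_cast h
  have h6 : (0 : ℝ) ≤ 1 - (k : ℝ) / p := by linarith
  have h7 : (1 - 1 / (p : ℝ)) ^ k * (1 + (k : ℝ) / p) ≤ 1 := by
    calc (1 - 1 / (p : ℝ)) ^ k * (1 + (k : ℝ) / p)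
        ≤ (1 - 1 / (p : ℝ)) ^ k * (1 + 1 / (p : ℝ)) ^ k := by
          apply mul_le_mul_of_nonneg_left _ (by positivity)
          calc 1 + (k : ℝ) / p = 1 + (k : ℝ) * (1 / (p : ℝ)) := by ring
            _ ≤ _ := h3
      _ = (1 - (1 / (p : ℝ)) ^ 2) ^ k := by rw [← mul_pow]; congr 1; ring
      _ ≤ 1 := by
          apply pow_le_one₀
          · have : (1 / (p : ℝ)) ^ 2 ≤ 1 := by
              apply pow_le_one₀ (by positivity)
              rw [div_le_one hp0]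
              linarith
            linarith
          · have : (0 : ℝ) ≤ (1 / (p : ℝ)) ^ 2 := by positivity
            linarith
  calc (1 - (k : ℝ) ^ 2 * ((p : ℝ) ^ 2)⁻¹) * (1 - 1 / (p : ℝ)) ^ k
      = (1 - (k : ℝ) / p) * ((1 - 1 / (p : ℝ)) ^ k * (1 + (k : ℝ) / p)) := by
        field_simp
        ring
    _ ≤ (1 - (k : ℝ) / p) * 1 := mul_le_mul_of_nonneg_left h7 h6
    _ = 1 - (k : ℝ) / p := mul_one _

open Classical in
lemma WG_low (k b : ℕ) (hb : 2 ≤ b) : ∃ v : ℝ, 0 < v ∧ ∀ᶠ K : ℕ in atTop, ∀ G : ℕ → ℤ,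
    (∀ p : ℕ, p.Prime → ((range p).filter (fun n : ℕ => (p : ℤ) ∣ G n)).card ≤ k ∧
      ((range p).filter (fun n : ℕ => (p : ℤ) ∣ G n)).card < p) →
    v / (K : ℝ) ^ k ≤ WG G (b ^ K) := by
  obtain ⟨v, Cv, hv, hCv, hW⟩ := WG_bounds {0}
    (fun p hp => ⟨1, fun h hh => by
      rw [mem_singleton] at hh
      subst hh
      intro hd
      exact hp.one_lt.ne' (Nat.dvd_one.1 hd)⟩) 1 (by decide) b hb
  obtain ⟨z₀, hz₀⟩ : ∃ z₀ : ℕ, z₀ = 4 * k ^ 2 + 2 := ⟨_, rfl⟩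
  have hz0 : (0 : ℝ) < z₀ := by
    have : 0 < z₀ := by omega
    exact_mod_cast this
  refine ⟨((z₀ : ℝ)⁻¹) ^ z₀ * v ^ k / 2, by positivity, ?_⟩
  filter_upwards [hW, eventually_ge_atTop (z₀ + 1)] with K hK hKz G hG
  obtain ⟨hW1, -⟩ := hK 0
  rw [pow_one] at hW1
  have hKpos : (0 : ℝ) < K := by
    have : 0 < K := by omega
    exact_mod_cast this
  have hzK : z₀ ≤ b ^ K := by
    have : K < b ^ K := Nat.lt_pow_self (by omega)
    omega
  -- the product for `{0}`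
  have hone : WG (TP {0} 0) (b ^ K) = ∏ p ∈ (Icc 1 (b ^ K)).filter Nat.Prime, (1 - 1 / (p : ℝ)) := by
    unfold WG
    apply prod_congr rfl
    intro p hp
    rw [mem_filter] at hp
    have hset : (range p).filter (fun n : ℕ => (p : ℤ) ∣ TP {0} 0 n) = {0} := by
      ext n
      rw [mem_filter, mem_range, mem_singleton, TP_dvd _ _ _ hp.2]
      constructor
      · rintro ⟨h1, h, hh, h2⟩
        rw [mem_singleton] at hh
        subst hh
        rw [zero_add, add_zero] at h2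
        exact Nat.eq_zero_of_dvd_of_lt h2 h1
      · rintro rfl
        exact ⟨hp.2.pos, 0, mem_singleton_self _, by simp⟩
    have hc : ((range p).filter (fun n : ℕ => (p : ℤ) ∣ TP {0} 0 n)).card = 1 := by
      rw [hset, card_singleton]
    have hc' : (((range p).filter (fun n : ℕ => (p : ℤ) ∣ TP {0} 0 n)).card : ℝ) = 1 := by
      rw [hc, Nat.cast_one]
    rw [hc']
  -- splitting
  obtain ⟨Q, hQ⟩ : ∃ Q, Q = (Icc 1 (b ^ K)).filter Nat.Prime := ⟨_, rfl⟩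
  have hQp : ∀ p ∈ Q, p.Prime := fun p hp => by
    rw [hQ, mem_filter] at hp
    exact hp.2
  have hpt : ∀ p ∈ Q, (if p ≤ z₀ then (z₀ : ℝ)⁻¹ else 1 - (k : ℝ) ^ 2 * ((p : ℝ) ^ 2)⁻¹) * (1 - 1 / (p : ℝ)) ^ k ≤
      1 - (((range p).filter (fun n : ℕ => (p : ℤ) ∣ G n)).card : ℝ) / p := by
    intro p hp
    have hpp := hQp p hp
    obtain ⟨g1, g2⟩ := hG p hpp
    have hp0 : (0 : ℝ) < p := by exact_mod_cast hpp.pos
    have h1 := one_sub_pos' hpp
    split_ifs with h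
    · have h3 : (1 - 1 / (p : ℝ)) ^ k ≤ 1 := by
        apply pow_le_one₀ h1.le
        have : (0 : ℝ) ≤ 1 / (p : ℝ) := by positivity
        linarith
      have h4 : (z₀ : ℝ)⁻¹ ≤ (p : ℝ)⁻¹ := by
        apply inv_anti₀ hp0
        exact_mod_cast h
      have h5 : (((range p).filter (fun n : ℕ => (p : ℤ) ∣ G n)).card : ℝ) ≤ p - 1 := by
        have : ((range p).filter (fun n : ℕ => (p : ℤ) ∣ G n)).card + 1 ≤ p := g2
        have h6 : ((((range p).filter (fun n : ℕ => (p : ℤ) ∣ G n)).card + 1 : ℕ) : ℝ) ≤ p := by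
          exact_mod_cast this
        push_cast at h6
        linarith
      have h6 : (((range p).filter (fun n : ℕ => (p : ℤ) ∣ G n)).card : ℝ) / p ≤ (p - 1) / p :=
        div_le_div_of_nonneg_right h5 hp0.le
      have h7 : ((p : ℝ) - 1) / p = 1 - (p : ℝ)⁻¹ := by
        field_simp
      calc (z₀ : ℝ)⁻¹ * (1 - 1 / (p : ℝ)) ^ k ≤ (z₀ : ℝ)⁻¹ * 1 := mul_le_mul_of_nonneg_left h3 (by positivity)
        _ ≤ (p : ℝ)⁻¹ := by linarith
        _ ≤ _ := by linarith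
    · have hkp : k ≤ p := by
        have : k ≤ 4 * k ^ 2 + 2 := by nlinarith [sq_nonneg ((k : ℤ) - 1), Nat.zero_le k]
        omega
      refine (one_sub_div_ge hpp hkp).trans ?_
      have h6 : (((range p).filter (fun n : ℕ => (p : ℤ) ∣ G n)).card : ℝ) / p ≤ (k : ℝ) / p :=
        div_le_div_of_nonneg_right (by exact_mod_cast g1) hp0.le
      linarith
  have hnn : ∀ p ∈ Q, 0 ≤ (if p ≤ z₀ then (z₀ : ℝ)⁻¹ else 1 - (k : ℝ) ^ 2 * ((p : ℝ) ^ 2)⁻¹) := by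
    intro p hp
    split_ifs with h
    · positivity
    · have hp0 : (0 : ℝ) < p := by exact_mod_cast (hQp p hp).pos
      have h3 : (k : ℝ) ^ 2 ≤ (p : ℝ) ^ 2 := by
        have h4 : k ≤ p := by
          have : k ≤ 4 * k ^ 2 + 2 := by nlinarith [sq_nonneg ((k : ℤ) - 1), Nat.zero_le k]
          omega
        have h5 : (k : ℝ) ≤ p := by exact_mod_cast h4
        exact pow_le_pow_left₀ (by positivity) h5 2
      have h4 : (k : ℝ) ^ 2 * ((p : ℝ) ^ 2)⁻¹ ≤ 1 := by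
        rw [← div_eq_mul_inv, div_le_one (by positivity)]
        exact h3
      linarith
  have hprod : (∏ p ∈ Q, (if p ≤ z₀ then (z₀ : ℝ)⁻¹ else 1 - (k : ℝ) ^ 2 * ((p : ℝ) ^ 2)⁻¹)) *
      (∏ p ∈ Q, (1 - 1 / (p : ℝ))) ^ k ≤ WG G (b ^ K) := by
    rw [← prod_pow, ← prod_mul_distrib]
    unfold WG
    rw [← hQ]
    apply Finset.prod_le_prod _ hpt
    intro p hp
    exact mul_nonneg (hnn p hp) (pow_nonneg (one_sub_pos' (hQp p hp)).le _)
  have hA : ((z₀ : ℝ)⁻¹) ^ z₀ / 2 ≤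
      ∏ p ∈ Q, (if p ≤ z₀ then (z₀ : ℝ)⁻¹ else 1 - (k : ℝ) ^ 2 * ((p : ℝ) ^ 2)⁻¹) := by
    rw [← prod_filter_mul_prod_filter_not Q (fun p => p ≤ z₀)]
    have h1 : ((z₀ : ℝ)⁻¹) ^ z₀ ≤ ∏ p ∈ Q.filter (fun p => p ≤ z₀),
        (if p ≤ z₀ then (z₀ : ℝ)⁻¹ else 1 - (k : ℝ) ^ 2 * ((p : ℝ) ^ 2)⁻¹) := by
      have e1 : ∏ p ∈ Q.filter (fun p => p ≤ z₀),
          (if p ≤ z₀ then (z₀ : ℝ)⁻¹ else 1 - (k : ℝ) ^ 2 * ((p : ℝ) ^ 2)⁻¹) =
          ∏ _p ∈ Q.filter (fun p => p ≤ z₀), (z₀ : ℝ)⁻¹ := by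
        apply prod_congr rfl
        intro p hp
        rw [if_pos (mem_filter.1 hp).2]
      rw [e1, prod_const]
      apply pow_le_pow_of_le_one (by positivity)
      · apply inv_le_one_of_one_le₀
        have : 1 ≤ z₀ := by omega
        exact_mod_cast this
      · calc (Q.filter (fun p => p ≤ z₀)).card ≤ (Icc 1 z₀).card := by
              apply card_le_card
              intro p hp
              rw [mem_filter] at hp
              rw [mem_Icc]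
              exact ⟨(hQp p hp.1).pos, hp.2⟩
          _ = z₀ := by rw [Nat.card_Icc]; omega
    have h2 : (1 : ℝ) / 2 ≤ ∏ p ∈ Q.filter (fun p => ¬ p ≤ z₀),
        (if p ≤ z₀ then (z₀ : ℝ)⁻¹ else 1 - (k : ℝ) ^ 2 * ((p : ℝ) ^ 2)⁻¹) := by
      have e1 : ∏ p ∈ Q.filter (fun p => ¬ p ≤ z₀),
          (if p ≤ z₀ then (z₀ : ℝ)⁻¹ else 1 - (k : ℝ) ^ 2 * ((p : ℝ) ^ 2)⁻¹) =
          ∏ p ∈ Q.filter (fun p => ¬ p ≤ z₀), (1 - (k : ℝ) ^ 2 * ((p : ℝ) ^ 2)⁻¹) := by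
        apply prod_congr rfl
        intro p hp
        rw [if_neg (mem_filter.1 hp).2]
      rw [e1]
      refine le_trans ?_ (prod_one_sub_ge _ (fun p : ℕ => (k : ℝ) ^ 2 * ((p : ℝ) ^ 2)⁻¹)
        (fun p _ => by positivity) fun p hp => ?_)
      · rw [← mul_sum]
        have h5 : ∑ p ∈ Q.filter (fun p => ¬ p ≤ z₀), ((p : ℝ) ^ 2)⁻¹ ≤ ∑ p ∈ Ioo z₀ (b ^ K + 1), ((p : ℝ) ^ 2)⁻¹ := by
          apply sum_le_sum_of_subset_of_nonneg
          · intro p hp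
            rw [mem_filter, hQ, mem_filter, mem_Icc] at hp
            rw [mem_Ioo]
            omega
          · intro _ _ _
            positivity
        have h6 : ∑ p ∈ Ioo z₀ (b ^ K + 1), ((p : ℝ) ^ 2)⁻¹ ≤ 2 / (z₀ + 1) := sum_Ioo_inv_sq_le z₀ (b ^ K + 1)
        have h7 : (k : ℝ) ^ 2 * (2 / ((z₀ : ℝ) + 1)) ≤ 1 / 2 := by
          rw [mul_div_assoc', div_le_iff₀ (by positivity)]
          rw [hz₀]
          push_cast
          linarith
        have h8 : (k : ℝ) ^ 2 * ∑ p ∈ Q.filter (fun p => ¬ p ≤ z₀), ((p : ℝ) ^ 2)⁻¹ ≤ 1 / 2 :=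
          (mul_le_mul_of_nonneg_left (h5.trans h6) (by positivity)).trans h7
        linarith
      · rw [mem_filter] at hp
        have h9 := hnn p hp.1
        rw [if_neg hp.2] at h9
        linarith
    have h3 : (0 : ℝ) ≤ ((z₀ : ℝ)⁻¹) ^ z₀ := by positivity
    calc ((z₀ : ℝ)⁻¹) ^ z₀ / 2 = ((z₀ : ℝ)⁻¹) ^ z₀ * (1 / 2) := by ring
      _ ≤ _ := mul_le_mul h1 h2 (by norm_num) (h3.trans h1)
  have hB : (v / K) ^ k ≤ (∏ p ∈ Q, (1 - 1 / (p : ℝ))) ^ k := by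
    apply pow_le_pow_left₀ (by positivity)
    rw [hQ, ← hone]
    exact hW1
  refine le_trans ?_ hprod
  calc ((z₀ : ℝ)⁻¹) ^ z₀ * v ^ k / 2 / (K : ℝ) ^ k = ((z₀ : ℝ)⁻¹) ^ z₀ / 2 * (v / K) ^ k := by
        rw [div_pow]
        field_simp
    _ ≤ _ := mul_le_mul hA hB (by positivity) (le_trans (by positivity) hA)

/-- the number of zeros modulo `p` of an admissible polynomial -/
lemma omega_lt (P : ℤ[X]) {p : ℕ} (hp : p.Prime) (h : ∃ n : ℕ, ¬ (p : ℤ) ∣ P.eval (n : ℤ)) :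
    ((range p).filter (fun n : ℕ => (p : ℤ) ∣ P.eval (n : ℤ))).card < p := by
  classical
  obtain ⟨m, hm⟩ := h
  have hss : (range p).filter (fun m : ℕ => (p : ℤ) ∣ P.eval (m : ℤ)) ⊆ (range p).erase (m % p) := by
    intro j hj
    rw [mem_filter] at hj
    rw [mem_erase]
    refine ⟨?_, hj.1⟩
    rintro rfl
    apply hm
    have h1 : ((m : ℤ) - ((m % p : ℕ) : ℤ)) ∣ P.eval (m : ℤ) - P.eval ((m % p : ℕ) : ℤ) :=
      sub_dvd_eval_sub _ _ _
    have h2 : (p : ℤ) ∣ (m : ℤ) - ((m % p : ℕ) : ℤ) := by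
      refine ⟨((m / p : ℕ) : ℤ), ?_⟩
      have h3 : ((p * (m / p) + m % p : ℕ) : ℤ) = (m : ℤ) := by rw [Nat.div_add_mod]
      push_cast at h3 ⊢
      linarith
    exact (dvd_iff_dvd_of_dvd_sub (h2.trans h1)).2 hj.2
  have h1 := card_le_card hss
  rw [card_erase_of_mem (mem_range.2 (Nat.mod_lt _ hp.pos)), card_range] at h1
  have := hp.pos
  omega

open Classical in
/-- lower bound of the product for admissible polynomials of bounded degree -/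
lemma WG_poly (k b : ℕ) (hb : 2 ≤ b) : ∃ v : ℝ, 0 < v ∧ ∀ᶠ K : ℕ in atTop, ∀ P : ℤ[X], P.natDegree ≤ k →
    (∀ p : ℕ, p.Prime → ∃ n : ℕ, ¬ (p : ℤ) ∣ P.eval (n : ℤ)) →
    v / (K : ℝ) ^ k ≤ WG (fun j : ℕ => P.eval (j : ℤ)) (b ^ K) := by
  obtain ⟨v, hv, h⟩ := WG_low k b hb
  refine ⟨v, hv, ?_⟩
  filter_upwards [h] with K hK P hP hadm
  apply hK
  intro p hp
  refine ⟨?_, ?_⟩
  · have h1 := count_le P hp (hadm p hp)
    unfold nuB at h1
    refine le_trans (le_of_eq ?_) (h1.trans hP)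
    congr
  · refine lt_of_le_of_lt (le_of_eq ?_) (omega_lt P hp (hadm p hp))
    congr

end Pool.Agent.X37.RD
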