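import Pool.Agent.X37.RD.Rankin
import Pool.Agent.X37.RD.Low

/-!
# Almost prime tuples of diameter up to Rankin's scale with nothing rough between them
-/

set_option autoImplicit false

namespace Pool.Agent.X37.RD

open Polynomial Finset Filter
open Pool.Agent.Y816.PD

/-- Rankin's function -/
noncomputable def RR (x : ℝ) : ℝ :=
  Real.log x * Real.log (Real.log x) * Real.log (Real.log (Real.log (Real.log x))) /
    (Real.log (Real.log (Real.log x))) ^ 2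

/-- the polynomial -/
noncomputable def TPo {k : ℕ} (Q n₀ : ℕ) (τ : Fin k → ℕ) : ℤ[X] :=
  ∏ j : Fin k, (Polynomial.C (Q : ℤ) * X + Polynomial.C ((n₀ + τ j : ℕ) : ℤ))

lemma TPo_eval {k : ℕ} (Q n₀ : ℕ) (τ : Fin k → ℕ) (m : ℕ) :
    (TPo Q n₀ τ).eval (m : ℤ) = ((∏ j : Fin k, (n₀ + Q * m + τ j) : ℕ) : ℤ) := by
  unfold TPo
  rw [eval_prod]
  push_cast
  apply prod_congr rfl
  intro j _
  rw [eval_add, eval_mul, eval_C, eval_X]
  simp only [eval_add, eval_C, eval_natCast]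
  try push_cast
  ring

lemma TPo_deg {k : ℕ} (Q n₀ : ℕ) (τ : Fin k → ℕ) : (TPo Q n₀ τ).natDegree ≤ k := by
  unfold TPo
  refine (natDegree_prod_le _ _).trans ?_
  calc ∑ j : Fin k, (Polynomial.C (Q : ℤ) * X + Polynomial.C ((n₀ + τ j : ℕ) : ℤ)).natDegree ≤
      ∑ _j : Fin k, 1 := by
        apply sum_le_sum
        intro j _
        refine (natDegree_add_le _ _).trans (max_le ?_ ?_)
        · exact (natDegree_C_mul_le _ _).trans natDegree_X_le
        · rw [natDegree_C]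
          exact Nat.zero_le 1
    _ = k := by simp

lemma TPo_adm {k : ℕ} {Q n₀ z : ℕ} {τ : Fin k → ℕ} (hQ : Q = primorial z)
    (h1 : ∀ p : ℕ, p.Prime → p ≤ z → ∀ j, ¬ p ∣ n₀ + τ j)
    (hadm : ∀ p : ℕ, p.Prime → ∃ a : ℕ, ∀ j, ¬ p ∣ a + τ j) (p : ℕ) (hp : p.Prime) :
    ∃ m : ℕ, ¬ (p : ℤ) ∣ (TPo Q n₀ τ).eval (m : ℤ) := by
  by_cases hpz : p ≤ z
  · refine ⟨0, ?_⟩
    rw [TPo_eval, Int.natCast_dvd_natCast, hp.prime.dvd_finsetProd_iff]
    rintro ⟨j, -, hj⟩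
    rw [mul_zero, add_zero] at hj
    exact h1 p hp hpz j hj
  · have : Fact p.Prime := ⟨hp⟩
    obtain ⟨a, ha⟩ := hadm p hp
    have hcop : ¬ p ∣ Q := by
      rw [hQ]
      unfold primorial
      rw [hp.prime.dvd_finsetProd_iff]
      rintro ⟨q, hq, hd⟩
      rw [mem_filter, mem_range] at hq
      have := (Nat.prime_dvd_prime_iff_eq hp hq.2).1 hd
      omega
    have hQ0 : (Q : ZMod p) ≠ 0 := fun h => hcop ((ZMod.natCast_eq_zero_iff Q p).1 h)
    refine ⟨(((a : ZMod p) - n₀) * (Q : ZMod p)⁻¹).val, ?_⟩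
    rw [TPo_eval, Int.natCast_dvd_natCast, hp.prime.dvd_finsetProd_iff]
    rintro ⟨j, -, hj⟩
    apply ha j
    rw [← ZMod.natCast_eq_zero_iff] at hj ⊢
    push_cast at hj ⊢
    rw [ZMod.natCast_zmod_val] at hj
    have e1 : (Q : ZMod p) * (((a : ZMod p) - n₀) * (Q : ZMod p)⁻¹) = (a : ZMod p) - n₀ := by
      field_simp
    rw [e1] at hj
    rw [← hj]
    ring

/-- asymptotic facts -/
lemma recfacts (A B c : ℝ) (hA : 0 < A) (k : ℕ) : ∀ᶠ N : ℕ in atTop,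
    B ≤ Real.log N ∧ 10 ≤ Real.log (Real.log N) ∧ 2 ≤ Real.log (Real.log (Real.log N)) ∧
    2 ≤ Real.log (Real.log (Real.log (Real.log N))) ∧
    c * (Real.log N) ^ 2 ≤ N ∧ B ≤ (N : ℝ) ^ (9 / 10 : ℝ) / 2 ∧ 6 * Real.sqrt N ≤ (N : ℝ) ^ (9 / 10 : ℝ) / 2 ∧
    (2 * Real.log N) ^ k ≤ A * (N : ℝ) ^ (1 / 10 : ℝ) := by
  have t0 : Tendsto (fun N : ℕ => (N : ℝ)) atTop atTop := tendsto_natCast_atTop_atTop
  have t1 : Tendsto (fun N : ℕ => Real.log N) atTop atTop := Real.tendsto_log_atTop.comp t0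
  have t2 : Tendsto (fun N : ℕ => Real.log (Real.log N)) atTop atTop := Real.tendsto_log_atTop.comp t1
  have t3 : Tendsto (fun N : ℕ => Real.log (Real.log (Real.log N))) atTop atTop := Real.tendsto_log_atTop.comp t2
  have t4 : Tendsto (fun N : ℕ => Real.log (Real.log (Real.log (Real.log N)))) atTop atTop :=
    Real.tendsto_log_atTop.comp t3
  have t5 : Tendsto (fun N : ℕ => (N : ℝ) ^ (9 / 10 : ℝ)) atTop atTop :=
    (tendsto_rpow_atTop (by norm_num)).comp t0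
  have t6 : Tendsto (fun N : ℕ => (N : ℝ) ^ (4 / 10 : ℝ)) atTop atTop :=
    (tendsto_rpow_atTop (by norm_num)).comp t0
  have h1 := t0.eventually ((Real.isLittleO_pow_log_id_atTop (n := 2)).def
    (show (0 : ℝ) < 1 / (|c| + 1) by positivity))
  have h2 : ∀ᶠ N : ℕ in atTop, (2 * Real.log N) ^ k ≤ A * (N : ℝ) ^ (1 / 10 : ℝ) := by
    have h3 : (fun x : ℝ => (Real.log x) ^ (k : ℝ)) =o[atTop] fun x => x ^ (1 / 10 : ℝ) :=
      isLittleO_log_rpow_rpow_atTop (k : ℝ) (by norm_num)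
    have h4 := t0.eventually (h3.def (show (0 : ℝ) < A / 2 ^ k by positivity))
    filter_upwards [h4, t1.eventually_ge_atTop 0, eventually_ge_atTop 1] with N g1 g2 g3
    rw [Real.rpow_natCast, Real.norm_of_nonneg (by positivity), Real.norm_of_nonneg (by positivity)] at g1
    rw [mul_pow]
    calc (2 : ℝ) ^ k * Real.log N ^ k ≤ 2 ^ k * (A / 2 ^ k * (N : ℝ) ^ (1 / 10 : ℝ)) :=
          mul_le_mul_of_nonneg_left g1 (by positivity)
      _ = A * (N : ℝ) ^ (1 / 10 : ℝ) := by field_simp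
  filter_upwards [t1.eventually_ge_atTop B, t2.eventually_ge_atTop 10, t3.eventually_ge_atTop 2,
    t4.eventually_ge_atTop 2, h1, t5.eventually_ge_atTop (2 * B), t6.eventually_ge_atTop 12, h2,
    eventually_ge_atTop 1] with N g1 g2 g3 g4 g5 g6 g7 g8 g9
  have hN0 : (0 : ℝ) < N := by exact_mod_cast g9
  refine ⟨g1, g2, g3, g4, ?_, by linarith, ?_, g8⟩
  · rw [Real.norm_of_nonneg (by positivity), id, Real.norm_of_nonneg hN0.le] at g5
    have h3 : c * Real.log N ^ 2 ≤ (|c| + 1) * Real.log N ^ 2 :=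
      mul_le_mul_of_nonneg_right (by have := le_abs_self c; linarith) (by positivity)
    refine h3.trans ?_
    calc (|c| + 1) * Real.log N ^ 2 ≤ (|c| + 1) * (1 / (|c| + 1) * N) :=
          mul_le_mul_of_nonneg_left g5 (by positivity)
      _ = N := by field_simp
  · have e1 : (N : ℝ) ^ (9 / 10 : ℝ) = (N : ℝ) ^ (4 / 10 : ℝ) * Real.sqrt N := by
      rw [Real.sqrt_eq_rpow, ← Real.rpow_add hN0]
      norm_num
    rw [e1]
    have h3 : 0 ≤ Real.sqrt N := Real.sqrt_nonneg _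
    nlinarith

/-- the scale -/
lemma scale {L : ℝ} {y : ℕ} (c : ℝ) (hc : 0 < c) (h1 : L / 56 ≤ y) (h2 : (y : ℝ) ≤ L / 28)
    (h3 : 10 ≤ Real.log L) (h4 : 2 ≤ Real.log (Real.log L)) (h5 : 2 ≤ Real.log (Real.log (Real.log L)))
    (hL : 0 < L) :
    c / 224 * (L * Real.log L * Real.log (Real.log (Real.log L)) / (Real.log (Real.log L)) ^ 2) ≤
      c * y * Real.log y * Real.log (Real.log (Real.log y)) / (Real.log (Real.log y)) ^ 2 := by
  obtain ⟨u, hu⟩ : ∃ u, u = Real.log L := ⟨_, rfl⟩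
  rw [← hu] at h3 h4 h5 ⊢
  obtain ⟨v, hv⟩ : ∃ v, v = Real.log u := ⟨_, rfl⟩
  rw [← hv] at h4 h5 ⊢
  obtain ⟨w, hw⟩ : ∃ w, w = Real.log v := ⟨_, rfl⟩
  rw [← hw] at h5 ⊢
  have hy0 : (0 : ℝ) < y := lt_of_lt_of_le (by positivity) h1
  have l2 : Real.log 2 ≤ 1 := by
    have := Real.log_le_sub_one_of_pos (by norm_num : (0 : ℝ) < 2)
    linarith
  have l56 : Real.log 56 ≤ 5 := by
    rw [Real.log_le_iff_le_exp (by norm_num)]
    have h6 : (2.7 : ℝ) ≤ Real.exp 1 := by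
      have := Real.exp_one_gt_d9
      linarith
    calc (56 : ℝ) ≤ 2.7 ^ 5 := by norm_num
      _ ≤ (Real.exp 1) ^ 5 := pow_le_pow_left₀ (by norm_num) h6 5
      _ = Real.exp 5 := by rw [← Real.exp_nat_mul]; norm_num
  have a1 : u / 2 ≤ Real.log y := by
    have h6 : Real.log (L / 56) ≤ Real.log y := Real.log_le_log (by positivity) h1
    rw [Real.log_div hL.ne' (by norm_num), ← hu] at h6
    linarith
  have a2 : Real.log y ≤ u := by
    rw [hu]
    apply Real.log_le_log hy0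
    linarith
  have b1 : v / 2 ≤ Real.log (Real.log y) := by
    have h6 : Real.log (u / 2) ≤ Real.log (Real.log y) := Real.log_le_log (by linarith) a1
    rw [Real.log_div (by linarith) (by norm_num), ← hv] at h6
    linarith
  have b2 : Real.log (Real.log y) ≤ v := by
    rw [hv]
    apply Real.log_le_log (by linarith) a2
  have c1 : w / 2 ≤ Real.log (Real.log (Real.log y)) := by
    have h6 : Real.log (v / 2) ≤ Real.log (Real.log (Real.log y)) := Real.log_le_log (by linarith) b1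
    rw [Real.log_div (by linarith) (by norm_num), ← hw] at h6
    linarith
  have b3 : 0 < Real.log (Real.log y) := by linarith
  have d1 : 0 ≤ Real.log y := by linarith
  have d2 : 0 ≤ Real.log (Real.log (Real.log y)) := by linarith
  calc c / 224 * (L * u * w / v ^ 2) = c * (L / 56) * (u / 2) * (w / 2) / v ^ 2 := by ring
    _ ≤ c * y * Real.log y * Real.log (Real.log (Real.log y)) / (Real.log (Real.log y)) ^ 2 := by
        gcongr

/-- **Main theorem.** -/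
theorem record_ap (k E : ℕ) (hk : 1 ≤ k) : ∃ c : ℝ, 0 < c ∧ ∃ r : ℕ, 2 ≤ r ∧ ∀ᶠ N : ℕ in atTop,
    ∀ x : ℕ, x ≤ N ^ E → ∀ T : Finset ℕ, T.card = k →
    (∀ p : ℕ, p.Prime → ∃ a : ℕ, ∀ t ∈ T, ¬ p ∣ a + t) → (∀ t ∈ T, (t : ℝ) ≤ c * RR N) →
    (N : ℝ) ^ (4 / 5 : ℝ) ≤ ({n : ℕ | (x < n ∧ n ≤ x + N) ∧
      (∀ t ∈ T, (∀ p : ℕ, p.Prime → p ∣ n + t → N < p ^ r) ∧ (n + t).primeFactorsList.length ≤ r) ∧
      ∀ s : ℕ, (s : ℝ) ≤ c * RR N → s ∉ T →
        ∃ p : ℕ, p.Prime ∧ (p : ℝ) ≤ Real.log N ∧ p ∣ n + s}.ncard : ℝ) := by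
  classical
  obtain ⟨c₁, hc₁, y₀, hran⟩ := rankinK k
  obtain ⟨c₂, hc₂, r₀, hr₀, hint⟩ := int_poly k (2 * (E + 2) * k) hk
  obtain ⟨κ, C, hκ, hC, hint2⟩ := hint r₀ le_rfl 2 le_rfl
  obtain ⟨Y₀, hY₀⟩ := eventually_atTop.1 hint2
  obtain ⟨v, hv, hlow⟩ := WG_poly k 2 le_rfl
  obtain ⟨K₀, hK₀⟩ := eventually_atTop.1 hlow
  obtain ⟨B, hB⟩ : ∃ B : ℝ, B = 28 * (y₀ + 2) + Y₀ + 3 * 2 ^ (K₀ + 1 + 1) + 4 := ⟨_, rfl⟩
  obtain ⟨c, hc⟩ : ∃ c : ℝ, c = c₁ / 224 := ⟨_, rfl⟩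
  have hc0 : 0 < c := by rw [hc]; positivity
  refine ⟨c, hc0, 2 * r₀, by omega, ?_⟩
  filter_upwards [recfacts (κ * v / 12) B c (by positivity) k, eventually_ge_atTop 5] with
    N hfacts hN5 x hx T hT hadm hTle
  obtain ⟨g1, g2, g3, g4, g5, g6, g7, g8⟩ := hfacts
  have hN0 : (0 : ℝ) < N := by exact_mod_cast (by omega : 0 < N)
  obtain ⟨L, hL⟩ : ∃ L, L = Real.log N := ⟨_, rfl⟩
  rw [← hL] at g1 g2 g3 g4 g5 g8
  have hRR : RR N = L * Real.log L * Real.log (Real.log (Real.log L)) / (Real.log (Real.log L)) ^ 2 := by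
    unfold RR
    rw [← hL]
  have hY₀0 : (0 : ℝ) ≤ Y₀ := Nat.cast_nonneg _
  have hy₀0 : (0 : ℝ) ≤ y₀ := Nat.cast_nonneg _
  have hpow0 : (0 : ℝ) < 3 * 2 ^ (K₀ + 1 + 1) := by positivity
  have hL0 : 28 * ((y₀ : ℝ) + 2) ≤ L := by linarith
  have hLpos : 0 < L := by linarith
  -- the parameter `y`
  obtain ⟨y, hy⟩ : ∃ y : ℕ, y = ⌊L / 28⌋₊ := ⟨_, rfl⟩
  have hy1 : (y : ℝ) ≤ L / 28 := by rw [hy]; exact Nat.floor_le (by positivity)
  have hy2 : L / 28 < y + 1 := by rw [hy]; exact Nat.lt_floor_add_one _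
  have hy3 : L / 56 ≤ y := by linarith
  have hyy : y₀ ≤ y := by
    have : (y₀ : ℝ) < y + 1 := by linarith
    have h2 : y₀ < y + 1 := by exact_mod_cast this
    omega
  have hy_pos : 1 ≤ y := by
    have : (1 : ℝ) < y + 1 := by linarith
    have h2 : 1 < y + 1 := by exact_mod_cast this
    omega
  -- the templates
  obtain ⟨τ, hτ⟩ : ∃ τ : Fin k → ℕ, τ = fun j => T.orderEmbOfFin hT j := ⟨_, rfl⟩
  have hτT : ∀ j, τ j ∈ T := fun j => by rw [hτ]; exact Finset.orderEmbOfFin_mem T hT j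
  have hTτ : ∀ t ∈ T, ∃ j, τ j = t := by
    intro t ht
    have h1 : t ∈ Set.range (T.orderEmbOfFin hT) := by
      rw [Finset.range_orderEmbOfFin]
      exact ht
    obtain ⟨j, hj⟩ := h1
    exact ⟨j, by rw [hτ]; exact hj⟩
  have hadmτ : ∀ p : ℕ, p.Prime → ∃ a : ℕ, ∀ j, ¬ p ∣ a + τ j := by
    intro p hp
    obtain ⟨a, ha⟩ := hadm p hp
    exact ⟨a, fun j => ha _ (hτT j)⟩
  have hRR0 : 0 ≤ RR N := by
    rw [hRR]
    have h1 : 0 ≤ Real.log (Real.log (Real.log L)) := by linarith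
    have h2 : 0 ≤ Real.log L := by linarith
    positivity
  obtain ⟨H, hH⟩ : ∃ H : ℕ, H = ⌊c * RR N⌋₊ := ⟨_, rfl⟩
  have hHle : ∀ s : ℕ, (s : ℝ) ≤ c * RR N ↔ s ≤ H := by
    intro s
    rw [hH, Nat.le_floor_iff (by positivity)]
  have hHR : (H : ℝ) ≤ c * RR N := (hHle H).2 le_rfl
  have hτH : ∀ j, τ j ≤ H := fun j => (hHle _).1 (hTle _ (hτT j))
  have hHscale : (H : ℝ) ≤ c₁ * y * Real.log y * Real.log (Real.log (Real.log y)) / (Real.log (Real.log y)) ^ 2 := by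
    refine hHR.trans ?_
    rw [hRR, hc]
    exact scale c₁ hc₁ hy3 hy1 g2 g3 g4 hLpos
  have hHN : H ≤ N := by
    have h1 : (H : ℝ) ≤ N := by
      refine hHR.trans (le_trans ?_ g5)
      apply mul_le_mul_of_nonneg_left _ hc0.le
      rw [hRR, div_le_iff₀ (by positivity)]
      have e1 : Real.log L ≤ L := Real.log_le_self hLpos.le
      have e2 : Real.log (Real.log (Real.log L)) ≤ Real.log (Real.log L) := Real.log_le_self (by linarith)
      have e3 : Real.log (Real.log L) ≤ (Real.log (Real.log L)) ^ 2 := by nlinarith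
      have e4 : 0 ≤ Real.log (Real.log (Real.log L)) := by linarith
      calc L * Real.log L * Real.log (Real.log (Real.log L)) ≤ L * L * (Real.log (Real.log L)) ^ 2 := by
            gcongr
            linarith
        _ = L ^ 2 * (Real.log (Real.log L)) ^ 2 := by ring
    exact_mod_cast h1
  -- the covering
  obtain ⟨n₀, hn₀, hcov1, hcov2⟩ := hran y hyy τ hadmτ H hHscale hτH
  obtain ⟨Q, hQ⟩ : ∃ Q, Q = primorial (2 * y) := ⟨_, rfl⟩
  rw [← hQ] at hn₀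
  have hQ0 : 0 < Q := by rw [hQ]; exact primorial_pos _
  have hQN : (Q : ℝ) ≤ (N : ℝ) ^ (1 / 10 : ℝ) := by
    have h1 : (Q : ℝ) ≤ (4 : ℝ) ^ (2 * y) := by
      rw [hQ]
      exact_mod_cast primorial_le_four_pow (2 * y)
    have h2 : Real.log 4 ≤ 1.4 := by
      have e : (4 : ℝ) = 2 ^ 2 := by norm_num
      rw [e, Real.log_pow]
      have := Real.log_two_lt_d9
      push_cast
      linarith
    have h3 : (4 : ℝ) ^ (2 * y) ≤ Real.exp (L / 10) := by
      rw [← Real.exp_log (show (0 : ℝ) < 4 ^ (2 * y) by positivity)]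
      apply Real.exp_le_exp.2
      rw [Real.log_pow]
      push_cast
      have h4 : 0 ≤ Real.log 4 := Real.log_nonneg (by norm_num)
      have h5 : (0 : ℝ) ≤ y := Nat.cast_nonneg _
      nlinarith
    refine h1.trans (h3.trans (le_of_eq ?_))
    rw [Real.rpow_def_of_pos hN0, ← hL]
    congr 1
    ring
  -- the length
  obtain ⟨Y, hY⟩ : ∃ Y, Y = N / Q := ⟨_, rfl⟩
  have hQR : (0 : ℝ) < Q := by exact_mod_cast hQ0
  have hYlow : (N : ℝ) ^ (9 / 10 : ℝ) / 2 ≤ Y := by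
    have h1 : (N : ℝ) ^ (9 / 10 : ℝ) ≤ N / Q := by
      rw [le_div_iff₀ hQR]
      calc (N : ℝ) ^ (9 / 10 : ℝ) * Q ≤ (N : ℝ) ^ (9 / 10 : ℝ) * (N : ℝ) ^ (1 / 10 : ℝ) := by gcongr
        _ = N := by rw [← Real.rpow_add hN0]; norm_num
    have h2 : (N : ℝ) / Q < Y + 1 := by
      rw [hY]
      have h3 := Nat.lt_div_mul_add hQ0 (a := N)
      rw [div_lt_iff₀ hQR]
      have h4 : (N : ℝ) < ((N / Q : ℕ) : ℝ) * Q + Q := by exact_mod_cast h3
      linarith
    have h3 : (1 : ℝ) ≤ (N : ℝ) ^ (9 / 10 : ℝ) / 2 := by linarith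
    linarith
  have hYB : B ≤ Y := g6.trans hYlow
  have hYY₀ : Y₀ ≤ Y := by
    have : (Y₀ : ℝ) ≤ Y := by linarith
    exact_mod_cast this
  have hYK : 3 * 2 ^ (K₀ + 1 + 1) ≤ Y := by
    have : (3 : ℝ) * 2 ^ (K₀ + 1 + 1) ≤ Y := by linarith
    exact_mod_cast this
  have hYN : Y ≤ N := by rw [hY]; exact Nat.div_le_self _ _
  have hY6 : 36 * N ≤ Y ^ 2 := by
    have h1 : 6 * Real.sqrt N ≤ Y := g7.trans hYlow
    have h2 : (6 * Real.sqrt N) ^ 2 ≤ (Y : ℝ) ^ 2 := pow_le_pow_left₀ (by positivity) h1 2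
    rw [mul_pow, Real.sq_sqrt hN0.le] at h2
    have h3 : ((36 * N : ℕ) : ℝ) ≤ ((Y ^ 2 : ℕ) : ℝ) := by
      push_cast
      linarith
    exact_mod_cast h3
  obtain ⟨K, hK⟩ : ∃ K, K = Nat.log 2 (Y / 3) := ⟨_, rfl⟩
  obtain ⟨hKK, hb1, hb2⟩ := log_three (b := 2) le_rfl (K₀ + 1 + 1) hYK hK
  have hQNn : Q ≤ N := by
    by_contra hcon
    push Not at hcon
    have : Y = 0 := by rw [hY]; exact Nat.div_eq_of_lt hcon
    have h2 : 0 < 3 * 2 ^ (K₀ + 1 + 1) := by positivity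
    omega
  -- the polynomial
  have hPadm := TPo_adm (τ := τ) hQ hcov1 hadmτ
  have hPdeg := TPo_deg Q n₀ τ
  have hsize : ∀ m : ℕ, m < x / Q + 2 * Y → ((TPo Q n₀ τ).eval (m : ℤ)).natAbs ≤ Y ^ (2 * (E + 2) * k) := by
    intro m hm
    rw [TPo_eval, Int.natAbs_natCast]
    calc ∏ j : Fin k, (n₀ + Q * m + τ j) ≤ ∏ _j : Fin k, N ^ (E + 2) := by
          apply Finset.prod_le_prod (fun _ _ => Nat.zero_le _)
          intro j _
          have h1 : Q * m ≤ x + 2 * N := by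
            calc Q * m ≤ Q * (x / Q + 2 * Y) := Nat.mul_le_mul_left _ hm.le
              _ = Q * (x / Q) + 2 * (Q * Y) := by ring
              _ ≤ x + 2 * N := by
                  have h2 := Nat.mul_div_le x Q
                  have h3 : Q * Y ≤ N := by rw [hY]; exact Nat.mul_div_le N Q
                  omega
          have h2 := hτH j
          have h3 : N ^ E + 4 * N ≤ N ^ (E + 2) := by
            have e1 : 1 ≤ N ^ E := Nat.one_le_pow _ _ (by omega)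
            obtain ⟨Z, hZ⟩ : ∃ Z, N ^ E = Z + 1 := ⟨N ^ E - 1, by omega⟩
            rw [pow_add, hZ]
            have e2 : 4 * N + 1 ≤ N ^ 2 := by nlinarith
            have e3 : Z * 1 ≤ Z * N ^ 2 := Nat.mul_le_mul_left Z (by nlinarith)
            have e4 : (Z + 1) * N ^ 2 = Z * N ^ 2 + N ^ 2 := by ring
            omega
          omega
      _ = (N ^ (E + 2)) ^ k := by rw [prod_const, card_univ, Fintype.card_fin]
      _ ≤ ((Y ^ 2) ^ (E + 2)) ^ k := by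
          apply Nat.pow_le_pow_left
          apply Nat.pow_le_pow_left
          omega
      _ = Y ^ (2 * (E + 2) * k) := by
          rw [← pow_mul, ← pow_mul]
          congr 1
          ring
  have hNA : NA K (fun _ => range 2) = (2 : ℝ) ^ K := by
    unfold NA
    simp
  obtain ⟨h2, -⟩ := hY₀ Y hYY₀ (TPo Q n₀ τ) hPdeg hPadm (x / Q) hsize K hK (fun _ => range 2)
    (fun _ _ => Subset.refl _) (by
      rw [hNA]
      have h3 : (1 : ℝ) ≤ Real.exp (c₂ * K) := Real.one_le_exp (by positivity)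
      have h4 : (0 : ℝ) ≤ 2 ^ K := by positivity
      push_cast
      nlinarith)
  have h3 := h2 ⟨0, by simp, by
    rw [TPo_eval, Int.natAbs_natCast, mul_zero, add_zero]
    apply Nat.Coprime.prod_left
    intro j _
    rw [Nat.coprime_comm, Nat.Prime.coprime_iff_not_dvd Nat.prime_two]
    exact hcov1 2 Nat.prime_two (by omega) j⟩
  rw [hNA] at h3
  -- comparison of the sets
  have hfin : {n : ℕ | (x < n ∧ n ≤ x + N) ∧
      (∀ t ∈ T, (∀ p : ℕ, p.Prime → p ∣ n + t → N < p ^ (2 * r₀)) ∧ (n + t).primeFactorsList.length ≤ 2 * r₀) ∧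
      ∀ s : ℕ, (s : ℝ) ≤ c * RR N → s ∉ T →
        ∃ p : ℕ, p.Prime ∧ (p : ℝ) ≤ Real.log N ∧ p ∣ n + s}.Finite := by
    apply (finite_toSet (Ioc x (x + N))).subset
    rintro n ⟨hn, -⟩
    rw [mem_coe, mem_Ioc]
    exact hn
  have hcmp : DC 2 K (fun _ => range 2) (PA (TPo Q n₀ τ) (x / Q) Y r₀ (2 ^ K)) ≤
      {n : ℕ | (x < n ∧ n ≤ x + N) ∧
      (∀ t ∈ T, (∀ p : ℕ, p.Prime → p ∣ n + t → N < p ^ (2 * r₀)) ∧ (n + t).primeFactorsList.length ≤ 2 * r₀) ∧
      ∀ s : ℕ, (s : ℝ) ≤ c * RR N → s ∉ T →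
        ∃ p : ℕ, p.Prime ∧ (p : ℝ) ≤ Real.log N ∧ p ∣ n + s}.ncard := by
    unfold DC
    apply Set.ncard_le_ncard_of_injOn (fun m => n₀ + Q * m) _ _ hfin
    · rintro m ⟨⟨⟨hm1, hm2⟩, hm3, hm4⟩, -⟩
      have hQx : x < Q * m := by
        calc x < Q * (x / Q + 1) := Nat.lt_mul_div_succ x hQ0
          _ ≤ Q * m := Nat.mul_le_mul_left _ hm1
      have hQx2 : Q * m + Q ≤ x + N := by
        calc Q * m + Q = Q * (m + 1) := by ring
          _ ≤ Q * (x / Q + Y) := Nat.mul_le_mul_left _ (by omega)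
          _ = Q * (x / Q) + Q * Y := by ring
          _ ≤ x + N := by
              have h4 := Nat.mul_div_le x Q
              have h5 : Q * Y ≤ N := by rw [hY]; exact Nat.mul_div_le N Q
              omega
      refine ⟨⟨by show x < n₀ + Q * m; omega, by show n₀ + Q * m ≤ x + N; omega⟩, ?_, ?_⟩
      · intro t ht
        obtain ⟨j, rfl⟩ := hTτ t ht
        have hdvd : (n₀ + Q * m + τ j) ∣ ∏ j : Fin k, (n₀ + Q * m + τ j) := dvd_prod_of_mem _ (mem_univ j)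
        constructor
        · intro p hp hpd
          have h4 := hm3 p hp (by
            rw [TPo_eval, Int.natCast_dvd_natCast]
            exact hpd.trans hdvd)
          have h5 : 36 * N ≤ 36 * (2 ^ K) ^ 2 := by
            calc 36 * N ≤ Y ^ 2 := hY6
              _ ≤ (3 * 2 * 2 ^ K) ^ 2 := Nat.pow_le_pow_left hb2 2
              _ = 36 * (2 ^ K) ^ 2 := by ring
          calc N ≤ (2 ^ K) ^ 2 := by omega
            _ < (p ^ r₀) ^ 2 := Nat.pow_lt_pow_left h4 (by norm_num)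
            _ = p ^ (2 * r₀) := by rw [← pow_mul, mul_comm]
        · rw [TPo_eval, Int.natAbs_natCast] at hm4
          have hne : ∏ j : Fin k, (n₀ + Q * m + τ j) ≠ 0 := by
            rw [prod_ne_zero_iff]
            intro j _
            omega
          have h5 := (Nat.primeFactorsList_sublist_of_dvd hdvd hne).length_le
          show (n₀ + Q * m + τ j).primeFactorsList.length ≤ 2 * r₀
          omega
      · intro s hs hsT
        obtain ⟨p, hp, hpy, hpd⟩ := hcov2 s ((hHle s).1 hs) (fun j h => hsT (h ▸ hτT j))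
        refine ⟨p, hp, ?_, ?_⟩
        · have h4 : (p : ℝ) ≤ 2 * y := by exact_mod_cast hpy
          rw [← hL]
          linarith
        · have h4 : p ∣ Q := by
            rw [hQ]
            exact (hp.dvd_primorial_iff).2 hpy
          have h5 : n₀ + Q * m + s = (n₀ + s) + Q * m := by ring
          show p ∣ n₀ + Q * m + s
          rw [h5]
          exact dvd_add hpd (h4.mul_right m)
    · intro m _ m' _ h
      have h' : n₀ + Q * m = n₀ + Q * m' := h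
      have h4 : Q * m = Q * m' := by omega
      exact Nat.eq_of_mul_eq_mul_left hQ0 h4
  have hW := hK₀ K (by omega) (TPo Q n₀ τ) hPdeg hPadm
  have hKpos : (0 : ℝ) < K := by
    have : 0 < K := by omega
    exact_mod_cast this
  have hKL : (K : ℝ) ≤ 2 * L := by
    have h4 : (2 : ℝ) ^ K ≤ N := by
      have h5 : 2 ^ K ≤ Y := by omega
      exact_mod_cast h5.trans hYN
    have h5 : (K : ℝ) * Real.log 2 ≤ L := by
      rw [hL, ← Real.log_pow]
      exact Real.log_le_log (by positivity) h4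
    have h6 := Real.log_two_gt_d9
    nlinarith
  have h2K : (N : ℝ) ^ (9 / 10 : ℝ) / 12 ≤ (2 : ℝ) ^ K := by
    have h4 : (Y : ℝ) ≤ 3 * 2 * 2 ^ K := by exact_mod_cast hb2
    linarith
  refine le_trans ?_ (h3.trans (Nat.cast_le.2 hcmp))
  have hKk : (K : ℝ) ^ k ≤ κ * v / 12 * (N : ℝ) ^ (1 / 10 : ℝ) :=
    (pow_le_pow_left₀ hKpos.le hKL k).trans g8
  have hKk0 : (0 : ℝ) < (K : ℝ) ^ k := by positivity
  calc (N : ℝ) ^ (4 / 5 : ℝ) = (N : ℝ) ^ (4 / 5 : ℝ) * (K : ℝ) ^ k / (K : ℝ) ^ k := by field_simp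
    _ ≤ (N : ℝ) ^ (4 / 5 : ℝ) * (κ * v / 12 * (N : ℝ) ^ (1 / 10 : ℝ)) / (K : ℝ) ^ k := by gcongr
    _ = κ * ((N : ℝ) ^ (9 / 10 : ℝ) / 12) * (v / (K : ℝ) ^ k) := by
        have e1 : (N : ℝ) ^ (9 / 10 : ℝ) = (N : ℝ) ^ (4 / 5 : ℝ) * (N : ℝ) ^ (1 / 10 : ℝ) := by
          rw [← Real.rpow_add hN0]; norm_num
        rw [e1]
        ring
    _ ≤ κ * (2 : ℝ) ^ K * WG (fun j : ℕ => (TPo Q n₀ τ).eval (j : ℤ)) (2 ^ K) := by gcongr

end Pool.Agent.X37.RD
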