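import Pool.Agent.X37.RD.Int

/-!
# The local factors for `m (N - m)`
-/

set_option autoImplicit false

namespace Pool.Agent.X37.RD

open Polynomial Finset Filter
open Pool.Agent.Y816.PD

/-- the polynomial `X (N - X)` -/
noncomputable def GP (N : ℕ) : ℤ[X] := X * (Polynomial.C (N : ℤ) - X)

lemma GP_eval (N m : ℕ) : (GP N).eval (m : ℤ) = (m : ℤ) * ((N : ℤ) - m) := by
  unfold GP
  rw [eval_mul, eval_sub, eval_X, eval_C]

lemma GP_dvd {N m p : ℕ} (hp : p.Prime) (hm : m ≤ N) :
    (p : ℤ) ∣ (GP N).eval (m : ℤ) ↔ p ∣ m ∨ p ∣ N - m := by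
  rw [GP_eval, (Nat.prime_iff_prime_int.1 hp).dvd_mul, Int.natCast_dvd_natCast]
  have : (N : ℤ) - m = ((N - m : ℕ) : ℤ) := by rw [Nat.cast_sub hm]
  rw [this, Int.natCast_dvd_natCast]

lemma GP_natAbs {N m : ℕ} (hm : m ≤ N) : ((GP N).eval (m : ℤ)).natAbs = m * (N - m) := by
  rw [GP_eval]
  have : (m : ℤ) * ((N : ℤ) - m) = ((m * (N - m) : ℕ) : ℤ) := by
    rw [Nat.cast_mul, Nat.cast_sub hm]
  rw [this, Int.natAbs_natCast]

lemma GP_deg (N : ℕ) : (GP N).natDegree ≤ 2 := by
  unfold GP
  refine natDegree_mul_le.trans ?_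
  have h1 : (X : ℤ[X]).natDegree ≤ 1 := natDegree_X_le
  have h2 : (Polynomial.C (N : ℤ) - X : ℤ[X]).natDegree ≤ 1 := by
    refine (natDegree_sub_le _ _).trans ?_
    rw [natDegree_C]
    exact max_le (by omega) h1
  omega

lemma GP_adm {N : ℕ} (hN : Even N) (p : ℕ) (hp : p.Prime) : ∃ n : ℕ, ¬ (p : ℤ) ∣ (GP N).eval (n : ℤ) := by
  obtain ⟨j, hj⟩ := adm_gold (N := (N : ℤ)) ((Int.even_coe_nat N).2 hN) 0 p hp
  refine ⟨j, fun h => hj ?_⟩
  rw [GP_eval] at h
  rw [Nat.cast_zero, zero_add]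
  exact h

open Classical in
lemma GP_omega (N p : ℕ) (hp : p.Prime) :
    ((range p).filter (fun n : ℕ => (p : ℤ) ∣ (GP N).eval (n : ℤ))).card = if p ∣ N then 1 else 2 := by
  have hset : (range p).filter (fun n : ℕ => (p : ℤ) ∣ (GP N).eval (n : ℤ)) = {0, N % p} := by
    ext n
    rw [mem_filter, mem_range, mem_insert, mem_singleton, GP_eval,
      (Nat.prime_iff_prime_int.1 hp).dvd_mul, Int.natCast_dvd_natCast]
    constructor
    · rintro ⟨h1, h2 | h2⟩
      · left
        exact Nat.eq_zero_of_dvd_of_lt h2 h1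
      · right
        have h3 : (n : ℤ) ≡ (N : ℤ) [ZMOD p] := (Int.modEq_iff_dvd).2 h2
        have h4 : n % p = N % p := by exact_mod_cast (Int.natCast_modEq_iff.1 h3)
        rwa [Nat.mod_eq_of_lt h1] at h4
    · rintro (rfl | rfl)
      · exact ⟨hp.pos, Or.inl (dvd_zero _)⟩
      · refine ⟨Nat.mod_lt _ hp.pos, Or.inr ?_⟩
        refine ⟨((N / p : ℕ) : ℤ), ?_⟩
        have h3 : ((p * (N / p) + N % p : ℕ) : ℤ) = (N : ℤ) := by rw [Nat.div_add_mod]
        push_cast at h3 ⊢
        linarith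
  rw [hset]
  by_cases h : p ∣ N
  · rw [if_pos h, Nat.mod_eq_zero_of_dvd h, pair_eq_singleton, card_singleton]
  · rw [if_neg h, card_pair]
    intro h0
    exact h (Nat.dvd_of_mod_eq_zero h0.symm)

open Classical in
lemma two_omega (p : ℕ) (hp : p.Prime) :
    ((range p).filter (fun n : ℕ => (p : ℤ) ∣ TP {0, 2} 0 n)).card = if p = 2 then 1 else 2 := by
  by_cases h2 : p = 2
  · subst h2
    rw [if_pos rfl]
    have hset : (range 2).filter (fun n : ℕ => ((2 : ℕ) : ℤ) ∣ TP {0, 2} 0 n) = {0} := by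
      ext n
      rw [mem_filter, mem_range, mem_singleton, TP_dvd _ _ _ Nat.prime_two]
      constructor
      · rintro ⟨h1, h, hh, hd⟩
        simp only [mem_insert, mem_singleton] at hh
        omega
      · rintro rfl
        exact ⟨by norm_num, 0, by simp, by norm_num⟩
    rw [hset, card_singleton]
  · rw [if_neg h2]
    have h3 : 3 ≤ p := by have := hp.two_le; omega
    have hset : (range p).filter (fun n : ℕ => (p : ℤ) ∣ TP {0, 2} 0 n) = {0, p - 2} := by
      ext n
      rw [mem_filter, mem_range, mem_insert, mem_singleton, TP_dvd _ _ _ hp]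
      constructor
      · rintro ⟨h1, h, hh, hd⟩
        simp only [mem_insert, mem_singleton] at hh
        rcases hh with rfl | rfl
        · left
          rw [zero_add, add_zero] at hd
          exact Nat.eq_zero_of_dvd_of_lt hd h1
        · rw [zero_add] at hd
          obtain ⟨k, hk⟩ := hd
          have hk1 : k = 1 := by
            have h4 : 0 < k := by
              rcases Nat.eq_zero_or_pos k with h5 | h5
              · subst h5
                omega
              · exact h5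
            have h5 : k < 2 := by
              by_contra h6
              push Not at h6
              have : p * 2 ≤ p * k := Nat.mul_le_mul_left _ h6
              omega
            omega
          subst hk1
          right
          omega
      · rintro (rfl | rfl)
        · exact ⟨hp.pos, 0, by simp, by simp⟩
        · refine ⟨by omega, 2, by simp, ?_⟩
          rw [zero_add, Nat.sub_add_cancel (by omega)]
    rw [hset, card_pair (by omega)]

/-- the local factor of an odd prime divisor -/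
noncomputable def gf (p : ℕ) : ℝ := ((p : ℝ) - 1) / (p - 2)

/-- the product of `(p - 1) / (p - 2)` over the odd prime divisors of `N` -/
noncomputable def sing (N : ℕ) : ℝ := ∏ p ∈ N.primeFactors.filter (fun p => p ≠ 2), ((p : ℝ) - 1) / (p - 2)

lemma gf_ge {p : ℕ} (hp : 3 ≤ p) : 1 ≤ gf p := by
  unfold gf
  have h : (3 : ℝ) ≤ p := by exact_mod_cast hp
  rw [le_div_iff₀ (by linarith)]
  linarith

lemma gf_le {p : ℕ} (hp : 3 ≤ p) : gf p ≤ 2 := by
  unfold gf
  have h : (3 : ℝ) ≤ p := by exact_mod_cast hp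
  rw [div_le_iff₀ (by linarith)]
  linarith

lemma WG_gold {N : ℕ} (hN : Even N) (z : ℕ) :
    WG (fun j : ℕ => (GP N).eval (j : ℤ)) z = WG (TP {0, 2} 0) z *
      ∏ p ∈ ((Icc 1 z).filter Nat.Prime).filter (fun p => p ∣ N ∧ p ≠ 2), gf p := by
  classical
  unfold WG
  rw [prod_filter (s := (Icc 1 z).filter Nat.Prime) (p := fun p => p ∣ N ∧ p ≠ 2), ← prod_mul_distrib]
  apply prod_congr rfl
  intro p hp
  rw [mem_filter] at hp
  have hpp := hp.2
  have e1 := GP_omega N p hpp
  have e2 := two_omega p hpp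
  have e1' : ((range p).filter (fun n : ℕ => (p : ℤ) ∣ (fun j : ℕ => (GP N).eval (j : ℤ)) n)).card =
      if p ∣ N then 1 else 2 := e1
  rw [e1', e2]
  have hp0 : (0 : ℝ) < p := by exact_mod_cast hpp.pos
  by_cases h2 : p = 2
  · subst h2
    have h3 : 2 ∣ N := hN.two_dvd
    rw [if_pos h3, if_pos rfl, if_neg (by tauto), mul_one]
  · have h3 : 3 ≤ p := by have := hpp.two_le; omega
    have h3' : (3 : ℝ) ≤ p := by exact_mod_cast h3
    by_cases h : p ∣ N
    · rw [if_pos h, if_neg h2, if_pos ⟨h, h2⟩]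
      unfold gf
      have : (p : ℝ) - 2 ≠ 0 := by linarith
      push_cast
      field_simp
    · rw [if_neg h, if_neg h2, if_neg (by tauto), mul_one]

/-- few large prime factors -/
lemma few_large {N z k : ℕ} (hN : 0 < N) (hz : 2 ≤ z) (h : N ≤ z ^ k) :
    (N.primeFactors.filter (fun p => z < p)).card ≤ k := by
  have h1 : ∏ p ∈ N.primeFactors.filter (fun p => z < p), p ∣ N :=
    (prod_dvd_prod_of_subset _ _ _ (filter_subset _ _)).trans (Nat.prod_primeFactors_dvd N)
  have h2 : z ^ (N.primeFactors.filter (fun p => z < p)).card ≤ ∏ p ∈ N.primeFactors.filter (fun p => z < p), p := by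
    rw [← prod_const]
    apply Finset.prod_le_prod (fun _ _ => Nat.zero_le _)
    intro p hp
    exact (mem_filter.1 hp).2.le
  exact (Nat.pow_le_pow_iff_right (by omega)).1 (h2.trans ((Nat.le_of_dvd hN h1).trans h))

lemma sing_bounds {N z k : ℕ} (hN : 0 < N) (hz : 2 ≤ z) (h : N ≤ z ^ k) :
    ∏ p ∈ ((Icc 1 z).filter Nat.Prime).filter (fun p => p ∣ N ∧ p ≠ 2), gf p ≤ sing N ∧
    sing N ≤ 2 ^ k * ∏ p ∈ ((Icc 1 z).filter Nat.Prime).filter (fun p => p ∣ N ∧ p ≠ 2), gf p := by
  classical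
  have hT : ((Icc 1 z).filter Nat.Prime).filter (fun p => p ∣ N ∧ p ≠ 2) =
      (N.primeFactors.filter (fun p => p ≠ 2)).filter (fun p => ¬ z < p) := by
    ext p
    simp only [mem_filter, mem_Icc, Nat.mem_primeFactors, not_lt]
    constructor
    · rintro ⟨⟨⟨h1, h2⟩, h3⟩, h4, h5⟩
      exact ⟨⟨⟨h3, h4, hN.ne'⟩, h5⟩, h2⟩
    · rintro ⟨⟨⟨h3, h4, -⟩, h5⟩, h2⟩
      exact ⟨⟨⟨h3.pos, h2⟩, h3⟩, h4, h5⟩
  have hge : ∀ p ∈ N.primeFactors.filter (fun p => p ≠ 2), 3 ≤ p := by
    intro p hp
    rw [mem_filter] at hp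
    have := (Nat.prime_of_mem_primeFactors hp.1).two_le
    have := hp.2
    omega
  have hs : sing N = (∏ p ∈ (N.primeFactors.filter (fun p => p ≠ 2)).filter (fun p => z < p), gf p) *
      ∏ p ∈ (N.primeFactors.filter (fun p => p ≠ 2)).filter (fun p => ¬ z < p), gf p := by
    rw [prod_filter_mul_prod_filter_not]
    rfl
  rw [hT, hs]
  have h0 : 0 ≤ ∏ p ∈ (N.primeFactors.filter (fun p => p ≠ 2)).filter (fun p => ¬ z < p), gf p :=
    prod_nonneg fun p hp => zero_le_one.trans (gf_ge (hge p (mem_filter.1 hp).1))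
  have h1 : 1 ≤ ∏ p ∈ (N.primeFactors.filter (fun p => p ≠ 2)).filter (fun p => z < p), gf p := by
    rw [← prod_const_one (s := (N.primeFactors.filter (fun p => p ≠ 2)).filter (fun p => z < p))]
    exact Finset.prod_le_prod (fun _ _ => zero_le_one) fun p hp => gf_ge (hge p (mem_filter.1 hp).1)
  have h2 : ∏ p ∈ (N.primeFactors.filter (fun p => p ≠ 2)).filter (fun p => z < p), gf p ≤ 2 ^ k := by
    calc ∏ p ∈ (N.primeFactors.filter (fun p => p ≠ 2)).filter (fun p => z < p), gf p
        ≤ ∏ _p ∈ (N.primeFactors.filter (fun p => p ≠ 2)).filter (fun p => z < p), (2 : ℝ) :=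
          Finset.prod_le_prod (fun p hp => zero_le_one.trans (gf_ge (hge p (mem_filter.1 hp).1)))
            fun p hp => gf_le (hge p (mem_filter.1 hp).1)
      _ = 2 ^ ((N.primeFactors.filter (fun p => p ≠ 2)).filter (fun p => z < p)).card := prod_const _
      _ ≤ 2 ^ k := by
          apply pow_le_pow_right₀ (by norm_num)
          refine le_trans (card_le_card ?_) (few_large hN hz h)
          intro p hp
          rw [mem_filter, mem_filter] at hp
          exact mem_filter.2 ⟨hp.1.1, hp.2⟩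
  exact ⟨le_mul_of_one_le_left h0 h1, mul_le_mul_of_nonneg_right h2 h0⟩

end Pool.Agent.X37.RD
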