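import Pool.Agent.X37.RD.Gold
import Pool.Agent.W218.MU.Dil

/-!
# The forms `q r + 1`: the truncated and the full singular product
-/

set_option autoImplicit false

namespace Pool.Agent.X37.RD

open Polynomial Finset Filter Topology
open Pool.Agent.Y816.PD
open Pool.Agent.W218.MU (wD SD SD_hasProd)

/-- the product of the `r X + 1` -/
noncomputable def DP (T : Finset ℕ) : ℤ[X] := ∏ r ∈ T, (Polynomial.C (r : ℤ) * X + 1)

lemma DP_eval (T : Finset ℕ) (q : ℕ) : (DP T).eval (q : ℤ) = ((∏ r ∈ T, (q * r + 1) : ℕ) : ℤ) := by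
  unfold DP
  rw [eval_prod]
  push_cast
  apply prod_congr rfl
  intro r _
  rw [eval_add, eval_mul, eval_C, eval_X, eval_one]
  ring

lemma DP_dvd (T : Finset ℕ) (q p : ℕ) : (p : ℤ) ∣ (DP T).eval (q : ℤ) ↔ p ∣ ∏ r ∈ T, (q * r + 1) := by
  rw [DP_eval, Int.natCast_dvd_natCast]

lemma DP_deg (T : Finset ℕ) : (DP T).natDegree ≤ T.card := by
  unfold DP
  refine (natDegree_prod_le _ _).trans ?_
  rw [Finset.card_eq_sum_ones]
  apply Finset.sum_le_sum
  intro r _
  refine (natDegree_add_le _ _).trans (max_le ?_ ?_)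
  · exact (natDegree_C_mul_le _ _).trans natDegree_X_le
  · rw [natDegree_one]
    exact zero_le_one

lemma DP_adm (T : Finset ℕ) (p : ℕ) (hp : p.Prime) : ∃ n : ℕ, ¬ (p : ℤ) ∣ (DP T).eval (n : ℤ) := by
  refine ⟨0, fun h => ?_⟩
  rw [DP_dvd] at h
  simp only [zero_mul, zero_add, prod_const_one] at h
  exact hp.one_lt.ne' (Nat.dvd_one.1 h)

lemma wD_le (T : Finset ℕ) {p : ℕ} (hp : p.Prime) : wD T p ≤ T.card := by
  classical
  have h := (count_le (DP T) hp (DP_adm T p hp)).trans (DP_deg T)
  unfold Pool.Agent.H373R2.T7.nuB at h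
  refine le_trans ?_ h
  unfold wD
  apply card_le_card
  intro q hq
  rw [mem_filter] at hq
  simp only [mem_filter]
  exact ⟨hq.1, (DP_dvd T q p).2 hq.2⟩

lemma wD_ge (T : Finset ℕ) {p : ℕ} (hp : p.Prime) (h1 : ∀ r ∈ T, ¬ p ∣ r)
    (h2 : ∀ r ∈ T, ∀ r' ∈ T, r < r' → ¬ p ∣ r' - r) : T.card ≤ wD T p := by
  classical
  have : Fact p.Prime := ⟨hp⟩
  unfold wD
  have hne : ∀ r ∈ T, (r : ZMod p) ≠ 0 := by
    intro r hr h
    exact h1 r hr ((ZMod.natCast_eq_zero_iff r p).1 h)
  apply card_le_card_of_injOn (fun r : ℕ => (-((r : ZMod p))⁻¹).val)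
  · intro r hr
    rw [mem_coe] at hr
    rw [mem_coe, mem_filter, mem_range]
    refine ⟨ZMod.val_lt _, (hp.prime.dvd_finsetProd_iff _).2 ⟨r, hr, ?_⟩⟩
    rw [← ZMod.natCast_eq_zero_iff]
    push_cast
    rw [ZMod.natCast_zmod_val, neg_mul, inv_mul_cancel₀ (hne r hr), neg_add_cancel]
  · intro r hr r' hr' h
    rw [mem_coe] at hr hr'
    have h3 : -((r : ZMod p))⁻¹ = -((r' : ZMod p))⁻¹ := ZMod.val_injective p h
    have h4 : (r : ZMod p) = (r' : ZMod p) := inv_injective (neg_injective h3)
    have h5 : r ≡ r' [MOD p] := (ZMod.natCast_eq_natCast_iff r r' p).1 h4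
    rcases lt_trichotomy r r' with h6 | h6 | h6
    · exact absurd ((Nat.modEq_iff_dvd' h6.le).1 h5) (h2 r hr r' hr' h6)
    · exact h6
    · exact absurd ((Nat.modEq_iff_dvd' h6.le).1 h5.symm) (h2 r' hr' r hr h6)

/-- the primes `p > z` dividing an element of `T` or the difference of two of them -/
def bad (T : Finset ℕ) (z : ℕ) : Finset ℕ :=
  T.biUnion (fun r => r.primeFactors.filter (fun p => z < p)) ∪
    (T ×ˢ T).biUnion (fun e => (e.2 - e.1).primeFactors.filter (fun p => z < p))

lemma bad_card {T : Finset ℕ} {z D : ℕ} (hz : 2 ≤ z) (hT : ∀ r ∈ T, 1 ≤ r ∧ r ≤ z ^ D) :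
    (bad T z).card ≤ (T.card + T.card * T.card) * D := by
  unfold bad
  refine (card_union_le _ _).trans ?_
  rw [add_mul]
  apply Nat.add_le_add
  · refine card_biUnion_le.trans ?_
    refine (Finset.sum_le_card_nsmul T _ D fun r hr => ?_).trans (le_of_eq (smul_eq_mul _ _))
    exact few_large (hT r hr).1 hz (hT r hr).2
  · refine card_biUnion_le.trans ?_
    refine (Finset.sum_le_card_nsmul (T ×ˢ T) _ D fun e he => ?_).trans (le_of_eq ?_)
    · rw [mem_product] at he
      rcases Nat.eq_zero_or_pos (e.2 - e.1) with h | h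
      · rw [h]
        simp
      · exact few_large h hz ((Nat.sub_le _ _).trans (hT e.2 he.2).2)
    · rw [card_product, smul_eq_mul]

/-- the local factors of the singular product -/
noncomputable def lf (T : Finset ℕ) (p : ℕ) : ℝ := (1 - (wD T p : ℝ) / p) / (1 - 1 / (p : ℝ)) ^ T.card

lemma one_sub_pos' {p : ℕ} (hp : p.Prime) : (0 : ℝ) < 1 - 1 / (p : ℝ) := by
  have h2 : (2 : ℝ) ≤ p := by exact_mod_cast hp.two_le
  rw [sub_pos, div_lt_one (by linarith)]
  linarith

lemma lf_le_pow (T : Finset ℕ) {p : ℕ} (hp : p.Prime) : lf T p ≤ 2 ^ T.card := by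
  unfold lf
  have h2 : (2 : ℝ) ≤ p := by exact_mod_cast hp.two_le
  have h1 := one_sub_pos' hp
  rw [div_le_iff₀ (by positivity), ← mul_pow]
  have h3 : (1 : ℝ) ≤ 2 * (1 - 1 / (p : ℝ)) := by
    have : 1 / (p : ℝ) ≤ 1 / 2 := one_div_le_one_div_of_le (by norm_num) h2
    linarith
  have h4 : (1 : ℝ) ≤ (2 * (1 - 1 / (p : ℝ))) ^ T.card := one_le_pow₀ h3
  have h5 : (0 : ℝ) ≤ (wD T p : ℝ) / p := by positivity
  linarith

lemma lf_le_one (T : Finset ℕ) {p : ℕ} (hp : p.Prime) (h : T.card ≤ wD T p) : lf T p ≤ 1 := by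
  unfold lf
  have h2 : (2 : ℝ) ≤ p := by exact_mod_cast hp.two_le
  have h1 := one_sub_pos' hp
  rw [div_le_iff₀ (by positivity), one_mul]
  have h3 := one_add_mul_le_pow (a := -(1 / (p : ℝ))) (by
    have : 1 / (p : ℝ) ≤ 1 / 2 := one_div_le_one_div_of_le (by norm_num) h2
    linarith) T.card
  have h4 : (T.card : ℝ) / p ≤ (wD T p : ℝ) / p :=
    div_le_div_of_nonneg_right (by exact_mod_cast h) (by linarith)
  calc 1 - (wD T p : ℝ) / p ≤ 1 - (T.card : ℝ) / p := by linarith
    _ = 1 + (T.card : ℝ) * -(1 / (p : ℝ)) := by ring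
    _ ≤ (1 + -(1 / (p : ℝ))) ^ T.card := h3
    _ = (1 - 1 / (p : ℝ)) ^ T.card := by rw [← sub_eq_add_neg]

lemma lf_ge (T : Finset ℕ) {p : ℕ} (hp : p.Prime) (h : T.card ≤ p) :
    1 - (T.card : ℝ) ^ 2 * ((p : ℝ) ^ 2)⁻¹ ≤ lf T p := by
  unfold lf
  have h2 : (2 : ℝ) ≤ p := by exact_mod_cast hp.two_le
  have hp0 : (0 : ℝ) < p := by linarith
  have h1 := one_sub_pos' hp
  rw [le_div_iff₀ (by positivity)]
  have h3 := one_add_mul_le_pow (a := 1 / (p : ℝ)) (by
    have : (0 : ℝ) ≤ 1 / (p : ℝ) := by positivity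
    linarith) T.card
  have h4 : (wD T p : ℝ) / p ≤ (T.card : ℝ) / p :=
    div_le_div_of_nonneg_right (by exact_mod_cast wD_le T hp) (by linarith)
  have h5 : (T.card : ℝ) / p ≤ 1 := by
    rw [div_le_one hp0]
    exact_mod_cast h
  have h6 : (0 : ℝ) ≤ 1 - (T.card : ℝ) / p := by linarith
  have h7 : (1 - 1 / (p : ℝ)) ^ T.card * (1 + (T.card : ℝ) / p) ≤ 1 := by
    calc (1 - 1 / (p : ℝ)) ^ T.card * (1 + (T.card : ℝ) / p)
        ≤ (1 - 1 / (p : ℝ)) ^ T.card * (1 + 1 / (p : ℝ)) ^ T.card := by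
          apply mul_le_mul_of_nonneg_left _ (by positivity)
          calc 1 + (T.card : ℝ) / p = 1 + (T.card : ℝ) * (1 / (p : ℝ)) := by ring
            _ ≤ _ := h3
      _ = (1 - (1 / (p : ℝ)) ^ 2) ^ T.card := by rw [← mul_pow]; congr 1; ring
      _ ≤ 1 := by
          apply pow_le_one₀
          · have : (1 / (p : ℝ)) ^ 2 ≤ 1 := by
              apply pow_le_one₀ (by positivity)
              rw [div_le_one hp0]
              linarith
            linarith
          · have : (0 : ℝ) ≤ (1 / (p : ℝ)) ^ 2 := by positivity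
            linarith
  calc (1 - (T.card : ℝ) ^ 2 * ((p : ℝ) ^ 2)⁻¹) * (1 - 1 / (p : ℝ)) ^ T.card
      = (1 - (T.card : ℝ) / p) * ((1 - 1 / (p : ℝ)) ^ T.card * (1 + (T.card : ℝ) / p)) := by
        field_simp
        ring
    _ ≤ (1 - (T.card : ℝ) / p) * 1 := mul_le_mul_of_nonneg_left h7 h6
    _ ≤ 1 - (wD T p : ℝ) / p := by linarith

lemma prod_one_sub_ge {ι : Type} [DecidableEq ι] (s : Finset ι) (f : ι → ℝ) (h0 : ∀ i ∈ s, 0 ≤ f i)
    (h1 : ∀ i ∈ s, f i ≤ 1) : 1 - ∑ i ∈ s, f i ≤ ∏ i ∈ s, (1 - f i) := by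
  induction s using Finset.induction_on with
  | empty => simp
  | insert a s ha ih =>
    rw [sum_insert ha, prod_insert ha]
    have ih' := ih (fun i hi => h0 i (mem_insert_of_mem hi)) (fun i hi => h1 i (mem_insert_of_mem hi))
    have ha0 := h0 a (mem_insert_self _ _)
    have ha1 := h1 a (mem_insert_self _ _)
    have hs0 : 0 ≤ ∑ i ∈ s, f i := sum_nonneg fun i hi => h0 i (mem_insert_of_mem hi)
    calc 1 - (f a + ∑ i ∈ s, f i) ≤ (1 - f a) * (1 - ∑ i ∈ s, f i) := by nlinarith
      _ ≤ (1 - f a) * ∏ i ∈ s, (1 - f i) := mul_le_mul_of_nonneg_left ih' (by linarith)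

/-- the truncated singular product -/
noncomputable def FT (T : Finset ℕ) (N : ℕ) : ℝ := ∏ p ∈ (Icc 1 N).filter Nat.Prime, lf T p

lemma FT_tendsto {T : Finset ℕ} (hT : ∀ r ∈ T, 1 ≤ r) : Tendsto (fun N => FT T N) atTop (𝓝 (SD T)) := by
  have h := SD_hasProd hT
  have h1 : Tendsto (fun N : ℕ => ((Icc 1 N).filter Nat.Prime).subtype Nat.Prime) atTop
      (atTop : Filter (Finset Nat.Primes)) := by
    apply tendsto_atTop_finset_of_monotone
    · intro a b hab
      apply Finset.subtype_mono
      exact filter_subset_filter _ (Icc_subset_Icc_right hab)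
    · intro p
      refine ⟨p.1, ?_⟩
      rw [Finset.mem_subtype, mem_filter, mem_Icc]
      exact ⟨⟨p.2.pos, le_refl _⟩, p.2⟩
  have h2 := h.comp h1
  refine h2.congr fun N => ?_
  have h3 := Finset.prod_subtype_eq_prod_filter (s := (Icc 1 N).filter Nat.Prime) (p := Nat.Prime)
    (f := fun p : ℕ => lf T p)
  rw [filter_filter] at h3
  simp only [and_self] at h3
  unfold FT
  rw [← h3]
  rfl

/-- the truncated singular product has the order of the full one -/
lemma SD_bounds {T : Finset ℕ} {z D : ℕ} (hz : 2 ≤ z) (hzT : 4 * T.card ^ 2 ≤ z) (hT : ∀ r ∈ T, 1 ≤ r ∧ r ≤ z ^ D) :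
    FT T z / 2 ≤ SD T ∧ SD T ≤ (2 ^ T.card) ^ ((T.card + T.card * T.card) * D) * FT T z := by
  classical
  have hlim := FT_tendsto (T := T) (fun r hr => (hT r hr).1)
  have hcz : ∀ p, z < p → T.card ≤ p := by
    intro p hp
    have : T.card ≤ 4 * T.card ^ 2 := by nlinarith [Nat.zero_le T.card, sq_nonneg (T.card - 1 : ℤ)]
    omega
  have hpos : ∀ N, 0 ≤ FT T N := by
    intro N
    apply prod_nonneg
    intro p hp
    rw [mem_filter] at hp
    unfold lf
    have h1 := one_sub_pos' hp.2
    apply div_nonneg _ (by positivity)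
    rw [sub_nonneg, div_le_one (by exact_mod_cast hp.2.pos)]
    have : wD T p ≤ p := by
      unfold wD
      exact (card_filter_le _ _).trans (card_range p).le
    exact_mod_cast this
  have hsplit : ∀ N, z ≤ N → FT T N = FT T z * ∏ p ∈ (Ioc z N).filter Nat.Prime, lf T p := by
    intro N hN
    unfold FT
    rw [← prod_union]
    · congr 1
      rw [← filter_union]
      congr 1
      ext p
      simp only [mem_Icc, mem_union, mem_Ioc]
      omega
    · apply disjoint_filter_filter
      rw [disjoint_left]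
      intro p hp hp'
      rw [mem_Icc] at hp
      rw [mem_Ioc] at hp'
      omega
  have hup : ∀ N, z ≤ N → ∏ p ∈ (Ioc z N).filter Nat.Prime, lf T p ≤
      (2 ^ T.card) ^ ((T.card + T.card * T.card) * D) := by
    intro N hN
    calc ∏ p ∈ (Ioc z N).filter Nat.Prime, lf T p
        ≤ ∏ p ∈ (Ioc z N).filter Nat.Prime, (if p ∈ bad T z then (2 : ℝ) ^ T.card else 1) := by
          apply Finset.prod_le_prod
          · intro p hp
            rw [mem_filter, mem_Ioc] at hp
            have h1 := one_sub_pos' hp.2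
            unfold lf
            apply div_nonneg _ (by positivity)
            rw [sub_nonneg, div_le_one (by exact_mod_cast hp.2.pos)]
            have : wD T p ≤ p := by
              unfold wD
              exact (card_filter_le _ _).trans (card_range p).le
            exact_mod_cast this
          · intro p hp
            rw [mem_filter, mem_Ioc] at hp
            split_ifs with hb
            · exact lf_le_pow T hp.2
            · apply lf_le_one T hp.2
              apply wD_ge T hp.2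
              · intro r hr hd
                apply hb
                unfold bad
                rw [mem_union]
                left
                rw [mem_biUnion]
                refine ⟨r, hr, ?_⟩
                rw [mem_filter, Nat.mem_primeFactors]
                exact ⟨⟨hp.2, hd, by have := (hT r hr).1; omega⟩, hp.1.1⟩
              · intro r hr r' hr' hlt hd
                apply hb
                unfold bad
                rw [mem_union]
                right
                rw [mem_biUnion]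
                refine ⟨(r, r'), mem_product.2 ⟨hr, hr'⟩, ?_⟩
                rw [mem_filter, Nat.mem_primeFactors]
                exact ⟨⟨hp.2, hd, by simp only; omega⟩, hp.1.1⟩
      _ = (2 ^ T.card) ^ (((Ioc z N).filter Nat.Prime).filter (fun p => p ∈ bad T z)).card := by
          rw [← prod_filter, prod_const]
      _ ≤ (2 ^ T.card) ^ ((T.card + T.card * T.card) * D) := by
          apply pow_le_pow_right₀ (one_le_pow₀ (by norm_num))
          refine le_trans (card_le_card ?_) (bad_card hz hT)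
          intro p hp
          exact (mem_filter.1 hp).2
  have hlow : ∀ N, z ≤ N → 1 / 2 ≤ ∏ p ∈ (Ioc z N).filter Nat.Prime, lf T p := by
    intro N hN
    have hz0 : (0 : ℝ) < z := by exact_mod_cast (by omega : 0 < z)
    have hzT' : 4 * (T.card : ℝ) ^ 2 ≤ z := by exact_mod_cast hzT
    have hone : ∀ p, z < p → (T.card : ℝ) ^ 2 * ((p : ℝ) ^ 2)⁻¹ ≤ 1 := by
      intro p hp
      have hp' : (z : ℝ) < p := by exact_mod_cast hp
      have h1 : (1 : ℝ) ≤ z := by exact_mod_cast (by omega : 1 ≤ z)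
      rw [← div_eq_mul_inv, div_le_one (by nlinarith)]
      nlinarith
    have hs : ∑ p ∈ (Ioc z N).filter Nat.Prime, (T.card : ℝ) ^ 2 * ((p : ℝ) ^ 2)⁻¹ ≤ 1 / 2 := by
      rw [← mul_sum]
      have h1 : ∑ p ∈ (Ioc z N).filter Nat.Prime, ((p : ℝ) ^ 2)⁻¹ ≤ ∑ i ∈ Ioo z (N + 1), ((i : ℝ) ^ 2)⁻¹ := by
        apply sum_le_sum_of_subset_of_nonneg
        · intro p hp
          rw [mem_filter, mem_Ioc] at hp
          rw [mem_Ioo]
          omega
        · intro i _ _
          positivity
      have h2 := sum_Ioo_inv_sq_le (α := ℝ) z (N + 1)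
      calc (T.card : ℝ) ^ 2 * ∑ p ∈ (Ioc z N).filter Nat.Prime, ((p : ℝ) ^ 2)⁻¹
          ≤ (T.card : ℝ) ^ 2 * (2 / ((z : ℝ) + 1)) :=
            mul_le_mul_of_nonneg_left (h1.trans h2) (by positivity)
        _ ≤ 1 / 2 := by
            rw [mul_div_assoc', div_le_div_iff₀ (by positivity) (by norm_num)]
            linarith
    calc (1 : ℝ) / 2 ≤ 1 - ∑ p ∈ (Ioc z N).filter Nat.Prime, (T.card : ℝ) ^ 2 * ((p : ℝ) ^ 2)⁻¹ := by linarith
      _ ≤ ∏ p ∈ (Ioc z N).filter Nat.Prime, (1 - (T.card : ℝ) ^ 2 * ((p : ℝ) ^ 2)⁻¹) := by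
          apply prod_one_sub_ge
          · intro p _
            positivity
          · intro p hp
            rw [mem_filter, mem_Ioc] at hp
            exact hone p hp.1.1
      _ ≤ ∏ p ∈ (Ioc z N).filter Nat.Prime, lf T p := by
          apply Finset.prod_le_prod
          · intro p hp
            rw [mem_filter, mem_Ioc] at hp
            have := hone p hp.1.1
            linarith
          · intro p hp
            rw [mem_filter, mem_Ioc] at hp
            exact lf_ge T hp.2 (hcz p hp.1.1)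
  constructor
  · refine ge_of_tendsto hlim ?_
    filter_upwards [eventually_ge_atTop z] with N hN
    rw [hsplit N hN]
    have := mul_le_mul_of_nonneg_left (hlow N hN) (hpos z)
    linarith
  · refine le_of_tendsto hlim ?_
    filter_upwards [eventually_ge_atTop z] with N hN
    rw [hsplit N hN, mul_comm]
    exact mul_le_mul_of_nonneg_right (hup N hN) (hpos z)

/-- the relation with the sieve product -/
lemma WG_DP (T : Finset ℕ) (z : ℕ) :
    WG (fun j : ℕ => (DP T).eval (j : ℤ)) z = FT T z * WG (TP {0} 0) z ^ T.card := by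
  classical
  unfold WG FT
  rw [← prod_pow, ← prod_mul_distrib]
  apply prod_congr rfl
  intro p hp
  rw [mem_filter] at hp
  have hpp := hp.2
  have h1 := one_sub_pos' hpp
  have e1 : ((range p).filter (fun n : ℕ => (p : ℤ) ∣ (fun j : ℕ => (DP T).eval (j : ℤ)) n)).card = wD T p := by
    unfold wD
    congr 1
    apply filter_congr
    intro q _
    exact DP_dvd T q p
  have e2 : ((range p).filter (fun n : ℕ => (p : ℤ) ∣ TP {0} 0 n)).card = 1 := by
    have : (range p).filter (fun n : ℕ => (p : ℤ) ∣ TP {0} 0 n) = {0} := by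
      ext n
      rw [mem_filter, mem_range, mem_singleton, TP_dvd _ _ _ hpp]
      constructor
      · rintro ⟨h1, h, hh, hd⟩
        rw [mem_singleton] at hh
        subst hh
        rw [zero_add, add_zero] at hd
        exact Nat.eq_zero_of_dvd_of_lt hd h1
      · rintro rfl
        exact ⟨hpp.pos, 0, by simp, by simp⟩
    rw [this, card_singleton]
  have e1' : ((range p).filter (fun n : ℕ => (p : ℤ) ∣ (DP T).eval (n : ℤ))).card = wD T p := by
    convert e1
  rw [e1', e2]
  unfold lf
  rw [Nat.cast_one, div_mul_cancel₀]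
  exact (pow_pos h1 _).ne'

end Pool.Agent.X37.RD
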