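import Pool.Agent.X37.RD.Int

/-!
# The polynomial `X (n - (X² + b X + c))`
-/

set_option autoImplicit false

namespace Pool.Agent.X37.RD

open Polynomial Finset Filter
open Pool.Agent.Y816.PD
open Pool.Agent.H373R2.T7 Pool.Agent.W123.RP Pool.Agent.W123.RU.Poly

/-- `X (n - (X² + b X + c))` -/
noncomputable def QP (b c n : ℤ) : ℤ[X] := X * (C n - (X ^ 2 + C b * X + C c))

lemma QP_eval (b c n : ℤ) (m : ℤ) : (QP b c n).eval m = m * (n - (m ^ 2 + b * m + c)) := by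
  unfold QP
  simp only [eval_mul, eval_sub, eval_add, eval_pow, eval_X, eval_C]

lemma QP_deg (b c n : ℤ) : (QP b c n).natDegree ≤ 3 := by
  unfold QP
  compute_degree

lemma QP_adm {b c n : ℤ} (hbc : Odd (b + c)) (hb : ¬ (3 : ℤ) ∣ b) (hn : Odd n) (p : ℕ) (hp : p.Prime) :
    ∃ m : ℕ, ¬ (p : ℤ) ∣ (QP b c n).eval (m : ℤ) := by
  by_contra hcon
  push Not at hcon
  have h0 := hcon 0
  have h1 := hcon 1
  have h2 := hcon 2
  have h3 := hcon 3
  rw [QP_eval] at h0 h1 h2 h3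
  push_cast at h0 h1 h2 h3
  have h6 : (p : ℤ) ∣ 6 := by
    have h := (((h3.sub (h2.mul_left 3)).add (h1.mul_left 3)).sub h0)
    have e : (3 * (n - (9 + b * 3 + c)) - 3 * (2 * (n - (4 + b * 2 + c))) +
      3 * (1 * (n - (1 + b * 1 + c))) - 0 * (n - (0 + b * 0 + c)) : ℤ) = -6 := by ring
    rw [e] at h
    exact (dvd_neg.1 h)
  have h6' : p ∣ 6 := by exact_mod_cast h6
  have hp6 : p = 2 ∨ p = 3 := by
    have hle := Nat.le_of_dvd (by norm_num) h6'
    interval_cases p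
    · exact absurd hp (by norm_num)
    · exact absurd hp (by norm_num)
    · exact Or.inl rfl
    · exact Or.inr rfl
    · exact absurd hp (by norm_num)
    · exact absurd h6' (by norm_num)
    · exact absurd hp (by norm_num)
  rcases hp6 with rfl | rfl
  · obtain ⟨t, ht⟩ := h1
    obtain ⟨s, hs⟩ := hbc
    obtain ⟨u, hu⟩ := hn
    push_cast at ht
    omega
  · obtain ⟨t, ht⟩ := h1
    obtain ⟨s, hs⟩ := h2
    push_cast at ht hs
    apply hb
    omega

open Classical in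
lemma QP_omega {b c n : ℤ} (hbc : Odd (b + c)) (hb : ¬ (3 : ℤ) ∣ b) (hn : Odd n) (p : ℕ) (hp : p.Prime) :
    ((range p).filter (fun m : ℕ => (p : ℤ) ∣ (QP b c n).eval (m : ℤ))).card ≤
    ((range p).filter (fun m : ℕ => (p : ℤ) ∣ TP {0, 2, 6} 0 m)).card := by
  have hadm := QP_adm hbc hb hn p hp
  have hle3 : ((range p).filter (fun m : ℕ => (p : ℤ) ∣ (QP b c n).eval (m : ℤ))).card ≤ 3 := by
    have h := count_le (QP b c n) hp hadm
    unfold nuB at h
    refine le_trans (le_of_eq ?_) (h.trans (QP_deg b c n))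
    congr
  have hlt : ((range p).filter (fun m : ℕ => (p : ℤ) ∣ (QP b c n).eval (m : ℤ))).card ≤ p - 1 := by
    obtain ⟨m, hm⟩ := hadm
    have hss : (range p).filter (fun m : ℕ => (p : ℤ) ∣ (QP b c n).eval (m : ℤ)) ⊆ (range p).erase (m % p) := by
      intro j hj
      rw [mem_filter] at hj
      rw [mem_erase]
      refine ⟨?_, hj.1⟩
      rintro rfl
      apply hm
      have h1 : ((m : ℤ) - ((m % p : ℕ) : ℤ)) ∣ (QP b c n).eval (m : ℤ) - (QP b c n).eval ((m % p : ℕ) : ℤ) :=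
        sub_dvd_eval_sub _ _ _
      have h2 : (p : ℤ) ∣ (m : ℤ) - ((m % p : ℕ) : ℤ) := by
        refine ⟨((m / p : ℕ) : ℤ), ?_⟩
        have h3 : ((p * (m / p) + m % p : ℕ) : ℤ) = (m : ℤ) := by rw [Nat.div_add_mod]
        push_cast at h3 ⊢
        linarith
      exact (dvd_iff_dvd_of_dvd_sub (h2.trans h1)).2 hj.2
    refine (card_le_card hss).trans ?_
    rw [card_erase_of_mem (mem_range.2 (Nat.mod_lt _ hp.pos)), card_range]
  have hmem : ∀ j : ℕ, (p : ℤ) ∣ TP {0, 2, 6} 0 j ↔ p ∣ j ∨ p ∣ j + 2 ∨ p ∣ j + 6 := by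
    intro j
    rw [TP_dvd _ _ _ hp]
    simp
  by_cases h2 : p = 2
  · subst h2
    refine hlt.trans ?_
    apply Nat.one_le_iff_ne_zero.2
    rw [card_ne_zero]
    exact ⟨0, by rw [mem_filter]; exact ⟨by decide, (hmem 0).2 (Or.inl (by norm_num))⟩⟩
  by_cases h3 : p = 3
  · subst h3
    refine hlt.trans ?_
    have hss : ({0, 1} : Finset ℕ) ⊆ (range 3).filter (fun m : ℕ => ((3 : ℕ) : ℤ) ∣ TP {0, 2, 6} 0 m) := by
      intro j hj
      rw [mem_filter]
      simp only [mem_insert, mem_singleton] at hj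
      rcases hj with rfl | rfl
      · exact ⟨by decide, (hmem 0).2 (Or.inl (by norm_num))⟩
      · exact ⟨by decide, (hmem 1).2 (Or.inr (Or.inl (by norm_num)))⟩
    have := card_le_card hss
    simpa using this
  by_cases h5 : p = 5
  · subst h5
    refine hle3.trans ?_
    have hss : ({0, 3, 4} : Finset ℕ) ⊆ (range 5).filter (fun m : ℕ => ((5 : ℕ) : ℤ) ∣ TP {0, 2, 6} 0 m) := by
      intro j hj
      rw [mem_filter]
      simp only [mem_insert, mem_singleton] at hj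
      rcases hj with rfl | rfl | rfl
      · exact ⟨by decide, (hmem 0).2 (Or.inl (by norm_num))⟩
      · exact ⟨by decide, (hmem 3).2 (Or.inr (Or.inl (by norm_num)))⟩
      · exact ⟨by decide, (hmem 4).2 (Or.inr (Or.inr (by norm_num)))⟩
    have := card_le_card hss
    simpa using this
  have hp7 : 7 ≤ p := by
    by_contra hcon
    have hp2 := hp.two_le
    interval_cases p
    · exact h2 rfl
    · exact h3 rfl
    · exact absurd hp (by norm_num)
    · exact h5 rfl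
    · exact absurd hp (by norm_num)
  refine hle3.trans ?_
  have hss : ({0, p - 2, p - 6} : Finset ℕ) ⊆ (range p).filter (fun m : ℕ => (p : ℤ) ∣ TP {0, 2, 6} 0 m) := by
    intro j hj
    rw [mem_filter, mem_range]
    simp only [mem_insert, mem_singleton] at hj
    rcases hj with rfl | rfl | rfl
    · exact ⟨by omega, (hmem 0).2 (Or.inl (by norm_num))⟩
    · exact ⟨by omega, (hmem _).2 (Or.inr (Or.inl (by rw [Nat.sub_add_cancel (by omega)])))⟩
    · exact ⟨by omega, (hmem _).2 (Or.inr (Or.inr (by rw [Nat.sub_add_cancel (by omega)])))⟩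
  have hc : ({0, p - 2, p - 6} : Finset ℕ).card = 3 := by
    rw [card_insert_of_notMem, card_insert_of_notMem, card_singleton]
    · rw [mem_singleton]; omega
    · simp only [mem_insert, mem_singleton]; omega
  have := card_le_card hss
  omega

open Classical in
lemma QP_WG {b c n : ℤ} (hbc : Odd (b + c)) (hb : ¬ (3 : ℤ) ∣ b) (hn : Odd n) (z : ℕ) :
    WG (TP {0, 2, 6} 0) z ≤ WG (fun j : ℕ => (QP b c n).eval (j : ℤ)) z := by
  unfold WG
  apply Finset.prod_le_prod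
  · intro p hp
    rw [mem_filter] at hp
    have hp0 : (0 : ℝ) < p := by exact_mod_cast hp.2.pos
    rw [sub_nonneg, div_le_one hp0]
    have : ((range p).filter (fun m : ℕ => (p : ℤ) ∣ TP {0, 2, 6} 0 m)).card ≤ p :=
      (card_filter_le _ _).trans (card_range p).le
    exact_mod_cast this
  · intro p hp
    rw [mem_filter] at hp
    have hp0 : (0 : ℝ) < p := by exact_mod_cast hp.2.pos
    have h := QP_omega hbc hb hn p hp.2
    have h' : (((range p).filter (fun m : ℕ => (p : ℤ) ∣ (QP b c n).eval (m : ℤ))).card : ℝ) ≤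
      (((range p).filter (fun m : ℕ => (p : ℤ) ∣ TP {0, 2, 6} 0 m)).card : ℝ) := by exact_mod_cast h
    have h2 := div_le_div_of_nonneg_right h' hp0.le
    simp only
    linarith

/-- size of the values -/
lemma QP_size {b c n : ℤ} {E y : ℕ} (hy : 3 ≤ y) (hb : |b| ≤ (y : ℤ) ^ E) (hc : |c| ≤ (y : ℤ) ^ E)
    (hn : |n| ≤ (y : ℤ) ^ E) {x m : ℕ} (hx : x ≤ y ^ E) (hm : m < x + 2 * y) :
    ((QP b c n).eval (m : ℤ)).natAbs ≤ y ^ (3 * E + 8) := by
  have hYpos : (1 : ℤ) ≤ (y : ℤ) ^ E := one_le_pow₀ (by exact_mod_cast (by omega : 1 ≤ y))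
  have hy3 : (3 : ℤ) ≤ y := by exact_mod_cast hy
  obtain ⟨Y, hY⟩ : ∃ Y : ℤ, Y = (y : ℤ) ^ E := ⟨_, rfl⟩
  obtain ⟨M, hM⟩ : ∃ M : ℤ, M = Y * (y : ℤ) ^ 2 := ⟨_, rfl⟩
  rw [← hY] at hb hc hn hYpos
  have hxY : (x : ℤ) ≤ Y := by rw [hY]; exact_mod_cast hx
  have hm0 : (0 : ℤ) ≤ m := Int.natCast_nonneg m
  have hy9 : 9 ≤ (y : ℤ) ^ 2 := by nlinarith
  have hYM : Y ≤ M := by
    rw [hM]
    nlinarith
  have hmM : (m : ℤ) ≤ M := by
    have h1 : (m : ℤ) ≤ x + 2 * y := by exact_mod_cast hm.le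
    have h2 : Y + 2 * y ≤ M := by
      rw [hM]
      nlinarith [mul_nonneg (by linarith : (0 : ℤ) ≤ Y - 1) (by nlinarith : (0 : ℤ) ≤ (y : ℤ) ^ 2 - 1)]
    linarith
  have hM1 : 1 ≤ M := by linarith
  have h1 : |(n - ((m : ℤ) ^ 2 + b * m + c))| ≤ 4 * M ^ 2 := by
    have a1 : |b * m| ≤ M * M := by
      rw [abs_mul]
      apply mul_le_mul (hb.trans hYM) _ (abs_nonneg _) (by linarith)
      rw [abs_of_nonneg hm0]
      exact hmM
    have a2 : (m : ℤ) ^ 2 ≤ M ^ 2 := by nlinarith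
    have a3 := abs_le.1 a1
    have a4 := abs_le.1 hn
    have a5 := abs_le.1 hc
    have a6 : M ≤ M ^ 2 := by nlinarith
    rw [abs_le]
    constructor
    · nlinarith [sq_nonneg (m : ℤ)]
    · nlinarith [sq_nonneg (m : ℤ)]
  have h2 : |(QP b c n).eval (m : ℤ)| ≤ M * (4 * M ^ 2) := by
    rw [QP_eval, abs_mul]
    apply mul_le_mul _ h1 (abs_nonneg _) (by linarith)
    rw [abs_of_nonneg hm0]
    exact hmM
  have h3 : M * (4 * M ^ 2) ≤ (y : ℤ) ^ (3 * E + 8) := by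
    have e1 : (y : ℤ) ^ (3 * E + 8) = Y ^ 3 * (y : ℤ) ^ 8 := by
      rw [hY, ← pow_mul, ← pow_add]
      congr 1
      ring
    have e2 : M * (4 * M ^ 2) = 4 * (Y ^ 3 * (y : ℤ) ^ 6) := by rw [hM]; ring
    rw [e1, e2]
    have h5 : 0 ≤ Y ^ 3 * (y : ℤ) ^ 6 := by positivity
    nlinarith
  have h4 : ((((QP b c n).eval (m : ℤ)).natAbs : ℕ) : ℤ) ≤ ((y ^ (3 * E + 8) : ℕ) : ℤ) := by
    rw [Int.natCast_natAbs]
    push_cast
    exact h2.trans h3
  exact_mod_cast h4

end Pool.Agent.X37.RD
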