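import Pool.Agent.X37.RD.Low
import Pool.Agent.H646.Moment

/-!
# Exact patterns of almost primes, uniformly in the pattern, with restricted digits, in short intervals
-/

set_option autoImplicit false

namespace Pool.Agent.X37.RD

open Polynomial Finset Filter
open Pool.Agent.Y816.PD
open Pool.Agent.H646 (rat)

/-- the polynomial `∏ (X + t)` -/
noncomputable def HP (T : Finset ℕ) : ℤ[X] := ∏ t ∈ T, (X + Polynomial.C (t : ℤ))

lemma HP_eval (T : Finset ℕ) (m : ℕ) : (HP T).eval (m : ℤ) = ((∏ t ∈ T, (m + t) : ℕ) : ℤ) := by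
  unfold HP
  rw [eval_prod]
  push_cast
  apply prod_congr rfl
  intro t _
  rw [eval_add, eval_X, eval_C]

lemma HP_deg (T : Finset ℕ) : (HP T).natDegree ≤ T.card := by
  unfold HP
  refine (natDegree_prod_le _ _).trans ?_
  rw [card_eq_sum_ones]
  apply sum_le_sum
  intro t _
  exact (natDegree_X_add_C _).le

lemma HP_dvd {T : Finset ℕ} {p m : ℕ} (hp : p.Prime) : (p : ℤ) ∣ (HP T).eval (m : ℤ) ↔ ∃ t ∈ T, p ∣ m + t := by
  rw [HP_eval, Int.natCast_dvd_natCast, hp.prime.dvd_finsetProd_iff]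

/-- the zeros modulo `p` -/
noncomputable def ZT (T : Finset ℕ) (p : ℕ) : Finset ℕ := (range p).filter (fun m => ∃ t ∈ T, p ∣ m + t)

open Classical in
lemma WG_HP (T : Finset ℕ) (z : ℕ) : WG (fun j : ℕ => (HP T).eval (j : ℤ)) z =
    ∏ p ∈ (Icc 1 z).filter Nat.Prime, (1 - ((ZT T p).card : ℝ) / p) := by
  unfold WG
  apply prod_congr rfl
  intro p hp
  rw [mem_filter] at hp
  have h : (range p).filter (fun n : ℕ => (p : ℤ) ∣ (HP T).eval (n : ℤ)) = ZT T p := by
    unfold ZT
    apply filter_congr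
    intro m _
    exact HP_dvd hp.2
  have h2 : ((range p).filter (fun n : ℕ => (p : ℤ) ∣ (fun j : ℕ => (HP T).eval (j : ℤ)) n)).card =
    (ZT T p).card := by
    rw [← h]
  rw [← h2]

lemma ZT_mono (T : Finset ℕ) (s p : ℕ) : ZT T p ⊆ ZT (insert s T) p := by
  intro m hm
  unfold ZT at hm ⊢
  rw [mem_filter] at hm ⊢
  obtain ⟨h1, t, ht, h2⟩ := hm
  exact ⟨h1, t, mem_insert_of_mem ht, h2⟩

lemma ZT_succ {T : Finset ℕ} {s p : ℕ} (hp : 0 < p) (h : ∀ t ∈ T, ¬ p ∣ ((s : ℤ) - t).natAbs) :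
    (ZT T p).card + 1 ≤ (ZT (insert s T) p).card := by
  have hm : (s * (p - 1)) % p ∈ ZT (insert s T) p := by
    unfold ZT
    rw [mem_filter, mem_range]
    refine ⟨Nat.mod_lt _ hp, s, mem_insert_self _ _, ?_⟩
    rw [← Nat.modEq_zero_iff_dvd]
    have h1 : s * (p - 1) % p + s ≡ s * (p - 1) + s [MOD p] := (Nat.mod_modEq _ _).add_right s
    have h2 : s * (p - 1) + s = s * p := by
      obtain ⟨q, rfl⟩ : ∃ q, p = q + 1 := ⟨p - 1, by omega⟩
      rw [Nat.add_sub_cancel]
      ring
    rw [h2] at h1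
    exact h1.trans ((Nat.modEq_zero_iff_dvd).2 (Dvd.intro_left s rfl))
  have hn : (s * (p - 1)) % p ∉ ZT T p := by
    intro hmem
    unfold ZT at hm hmem
    rw [mem_filter] at hm hmem
    obtain ⟨-, t, ht, h1⟩ := hmem
    have h2 : p ∣ (s * (p - 1)) % p + s := by
      rw [← Nat.modEq_zero_iff_dvd]
      have h1 : s * (p - 1) % p + s ≡ s * (p - 1) + s [MOD p] := (Nat.mod_modEq _ _).add_right s
      have h2 : s * (p - 1) + s = s * p := by
        obtain ⟨q, rfl⟩ : ∃ q, p = q + 1 := ⟨p - 1, by omega⟩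
        rw [Nat.add_sub_cancel]
        ring
      rw [h2] at h1
      exact h1.trans ((Nat.modEq_zero_iff_dvd).2 (Dvd.intro_left s rfl))
    apply h t ht
    rw [← Int.natCast_dvd]
    have h3 := dvd_sub (Int.natCast_dvd_natCast.2 h2) (Int.natCast_dvd_natCast.2 h1)
    have h4 : (((s * (p - 1) % p + s : ℕ) : ℤ)) - ((s * (p - 1) % p + t : ℕ) : ℤ) = (s : ℤ) - t := by
      push_cast
      ring
    rwa [h4] at h3
  have h1 : insert ((s * (p - 1)) % p) (ZT T p) ⊆ ZT (insert s T) p := by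
    intro m hmm
    rw [mem_insert] at hmm
    rcases hmm with rfl | hmm
    · exact hm
    · exact ZT_mono T s p hmm
  have h2 := card_le_card h1
  rwa [card_insert_of_notMem hn] at h2

lemma ZT_le (T : Finset ℕ) (p : ℕ) : (ZT T p).card ≤ p :=
  (card_filter_le _ _).trans (card_range p).le

lemma inv_prod_rat (n : ℕ) (hn : n ≠ 0) : ∏ p ∈ n.primeFactors, (1 - 1 / (p : ℝ))⁻¹ = rat n := by
  have hn0 : (0 : ℝ) < n := by exact_mod_cast Nat.pos_of_ne_zero hn
  have h1 : (Nat.totient n : ℝ) = n * ∏ p ∈ n.primeFactors, (1 - (p : ℝ)⁻¹) := by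
    have := Nat.totient_eq_mul_prod_factors n
    have h2 : ((Nat.totient n : ℚ) : ℝ) = ((n * ∏ p ∈ n.primeFactors, (1 - (p : ℚ)⁻¹) : ℚ) : ℝ) := by
      rw [this]
    push_cast at h2
    exact h2
  have h3 : 0 < ∏ p ∈ n.primeFactors, (1 - (p : ℝ)⁻¹) := by
    apply prod_pos
    intro p hp
    have := one_sub_pos' (Nat.prime_of_mem_primeFactors hp)
    rwa [one_div] at this
  unfold rat
  rw [h1, prod_inv_distrib]
  simp only [one_div]
  field_simp

lemma one_le_prod1 {ι : Type} (s : Finset ι) (f : ι → ℝ) (h : ∀ i ∈ s, 1 ≤ f i) : 1 ≤ ∏ i ∈ s, f i := by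
  classical
  induction s using Finset.induction_on with
  | empty => simp
  | insert a s ha ih =>
    rw [prod_insert ha]
    have h1 := h a (mem_insert_self _ _)
    have h2 := ih (fun i hi => h i (mem_insert_of_mem hi))
    nlinarith

lemma prod_sub1 {s t : Finset ℕ} (hst : s ⊆ t) (f : ℕ → ℝ) (h : ∀ i ∈ t, 1 ≤ f i) :
    ∏ i ∈ s, f i ≤ ∏ i ∈ t, f i := by
  classical
  rw [← prod_sdiff hst]
  have h1 := one_le_prod1 (t \ s) f fun i hi => h i (mem_sdiff.1 hi).1
  have h2 := one_le_prod1 s f fun i hi => h i (hst hi)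
  nlinarith

/-- the factor for one more element -/
lemma WG_insert (T : Finset ℕ) (s z : ℕ) (hs : s ∉ T) :
    WG (fun j : ℕ => (HP (insert s T)).eval (j : ℤ)) z ≤
      WG (fun j : ℕ => (HP T).eval (j : ℤ)) z * (∏ p ∈ (Icc 1 z).filter Nat.Prime, (1 - 1 / (p : ℝ))) *
        ∏ t ∈ T, rat ((s : ℤ) - t).natAbs := by
  classical
  rw [WG_HP, WG_HP]
  obtain ⟨g, hg⟩ : ∃ g : ℕ → ℝ, g = fun p => if ∃ t ∈ T, p ∣ ((s : ℤ) - t).natAbs then (1 - 1 / (p : ℝ))⁻¹ else 1 :=
    ⟨_, rfl⟩
  have hne : ∀ t ∈ T, ((s : ℤ) - t).natAbs ≠ 0 := by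
    intro t ht h
    rw [Int.natAbs_eq_zero, sub_eq_zero] at h
    have : s = t := by exact_mod_cast h
    exact hs (this ▸ ht)
  have hg1 : ∀ p ∈ (Icc 1 z).filter Nat.Prime, 1 ≤ g p := by
    intro p hp
    rw [mem_filter] at hp
    have h1 := one_sub_pos' hp.2
    have hp0 : (0 : ℝ) < p := by exact_mod_cast hp.2.pos
    rw [hg]
    simp only
    split_ifs
    · rw [one_le_inv₀ h1]
      have : (0 : ℝ) ≤ 1 / (p : ℝ) := by positivity
      linarith
    · exact le_rfl
  have hstep : ∏ p ∈ (Icc 1 z).filter Nat.Prime, (1 - ((ZT (insert s T) p).card : ℝ) / p) ≤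
      ∏ p ∈ (Icc 1 z).filter Nat.Prime, ((1 - ((ZT T p).card : ℝ) / p) * (1 - 1 / (p : ℝ)) * g p) := by
    apply Finset.prod_le_prod
    · intro p hp
      rw [mem_filter] at hp
      have hp0 : (0 : ℝ) < p := by exact_mod_cast hp.2.pos
      rw [sub_nonneg, div_le_one hp0]
      exact_mod_cast ZT_le _ p
    · intro p hp
      rw [mem_filter] at hp
      have hp0 : (0 : ℝ) < p := by exact_mod_cast hp.2.pos
      have h1 := one_sub_pos' hp.2
      have hle : ((ZT T p).card : ℝ) ≤ (ZT (insert s T) p).card := by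
        exact_mod_cast card_le_card (ZT_mono T s p)
      rw [hg]
      simp only
      split_ifs with h
      · rw [mul_assoc, mul_inv_cancel₀ h1.ne', mul_one]
        have := div_le_div_of_nonneg_right hle hp0.le
        linarith
      · push Not at h
        have h2 := ZT_succ hp.2.pos h
        have h3 : ((ZT T p).card : ℝ) + 1 ≤ (ZT (insert s T) p).card := by exact_mod_cast h2
        have h4 : (((ZT T p).card : ℝ) + 1) / p ≤ ((ZT (insert s T) p).card : ℝ) / p :=
          div_le_div_of_nonneg_right h3 hp0.le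
        have h5 : (1 - ((ZT T p).card : ℝ) / p) * (1 - 1 / (p : ℝ)) * 1 =
            1 - (((ZT T p).card : ℝ) + 1) / p + ((ZT T p).card : ℝ) / p * (1 / p) := by ring
        rw [h5]
        have h6 : (0 : ℝ) ≤ ((ZT T p).card : ℝ) / p * (1 / p) := by positivity
        linarith
  have hgle : ∏ p ∈ (Icc 1 z).filter Nat.Prime, g p ≤ ∏ t ∈ T, rat ((s : ℤ) - t).natAbs := by
    have h1 : ∏ p ∈ (Icc 1 z).filter Nat.Prime, g p ≤
        ∏ p ∈ (Icc 1 z).filter Nat.Prime, ∏ t ∈ T,
          (if p ∣ ((s : ℤ) - t).natAbs then (1 - 1 / (p : ℝ))⁻¹ else 1) := by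
      apply Finset.prod_le_prod (fun p hp => zero_le_one.trans (hg1 p hp))
      intro p hp
      rw [mem_filter] at hp
      have h1 := one_sub_pos' hp.2
      have hp0 : (0 : ℝ) < p := by exact_mod_cast hp.2.pos
      have hinv : 1 ≤ (1 - 1 / (p : ℝ))⁻¹ := by
        rw [one_le_inv₀ h1]
        have : (0 : ℝ) ≤ 1 / (p : ℝ) := by positivity
        linarith
      have hall : ∀ t ∈ T, 1 ≤ (if p ∣ ((s : ℤ) - t).natAbs then (1 - 1 / (p : ℝ))⁻¹ else 1) := by
        intro t _
        split_ifs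
        · exact hinv
        · exact le_rfl
      rw [hg]
      simp only
      split_ifs with h
      · obtain ⟨t, ht, hd⟩ := h
        calc (1 - 1 / (p : ℝ))⁻¹ = (if p ∣ ((s : ℤ) - t).natAbs then (1 - 1 / (p : ℝ))⁻¹ else 1) := by
              rw [if_pos hd]
          _ ≤ _ := by
              rw [← mul_prod_erase T _ ht]
              apply le_mul_of_one_le_right
              · rw [if_pos hd]; linarith
              · exact one_le_prod1 _ _ fun i hi => hall i (mem_of_mem_erase hi)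
      · exact one_le_prod1 _ _ hall
    refine h1.trans ?_
    rw [Finset.prod_comm]
    apply Finset.prod_le_prod
    · intro t _
      apply prod_nonneg
      intro p hp
      rw [mem_filter] at hp
      have h1 := one_sub_pos' hp.2
      split_ifs
      · positivity
      · norm_num
    · intro t ht
      rw [← inv_prod_rat _ (hne t ht)]
      rw [← prod_filter]
      have hsub : ((Icc 1 z).filter Nat.Prime).filter (fun p => p ∣ ((s : ℤ) - t).natAbs) ⊆
          (((s : ℤ) - t).natAbs).primeFactors := by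
        intro p hp
        rw [mem_filter, mem_filter] at hp
        rw [Nat.mem_primeFactors]
        exact ⟨hp.1.2, hp.2, hne t ht⟩
      exact prod_sub1 hsub _ fun p hp => by
        have hpp := Nat.prime_of_mem_primeFactors hp
        have h1 := one_sub_pos' hpp
        have hp0 : (0 : ℝ) < p := by exact_mod_cast hpp.pos
        rw [one_le_inv₀ h1]
        have : (0 : ℝ) ≤ 1 / (p : ℝ) := by positivity
        linarith
  refine hstep.trans ?_
  rw [prod_mul_distrib, prod_mul_distrib]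
  apply mul_le_mul_of_nonneg_left hgle
  apply mul_nonneg
  · apply prod_nonneg
    intro p hp
    rw [mem_filter] at hp
    have hp0 : (0 : ℝ) < p := by exact_mod_cast hp.2.pos
    rw [sub_nonneg, div_le_one hp0]
    exact_mod_cast ZT_le _ p
  · apply prod_nonneg
    intro p hp
    exact (one_sub_pos' (mem_filter.1 hp).2).le

end Pool.Agent.X37.RD
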