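import Pool.Agent.Y816.PD.UniL
import Pool.Agent.Y816.PD.UniJ

/-!
# Almost prime values of polynomials at integers with restricted digits in all short intervals
-/

set_option autoImplicit false

namespace Pool.Agent.X37.RD

open Polynomial Finset Filter
open Pool.Agent.Y816.PD

/-- the `m` in `(x, x + y)` for which all prime factors `p` of `P m` satisfy `z < p ^ r` and `P m` has at most `r`
prime factors -/
def PA (P : ℤ[X]) (x y r z : ℕ) : Set ℕ := {m | (x < m ∧ m < x + y) ∧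
  (∀ p : ℕ, p.Prime → (p : ℤ) ∣ P.eval (m : ℤ) → z < p ^ r) ∧ (P.eval (m : ℤ)).natAbs.primeFactorsList.length ≤ r}

/-- the `m` in `(x, x + y)` for which all prime factors `p` of `P m` satisfy `m % z < p ^ r` -/
def PR (P : ℤ[X]) (x y r z : ℕ) : Set ℕ := {m | (x < m ∧ m < x + y) ∧
  ∀ p : ℕ, p.Prime → (p : ℤ) ∣ P.eval (m : ℤ) → m % z < p ^ r}

open Classical in
lemma WG_shift (P : ℤ[X]) (a z : ℕ) :
    WG (fun j : ℕ => P.eval ((a + j : ℕ) : ℤ)) z = WG (fun j : ℕ => P.eval (j : ℤ)) z := by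
  unfold WG
  apply prod_congr rfl
  intro p hp
  rw [mem_filter] at hp
  have hpp := hp.2
  have h := shift_eq p a hpp.pos (fun n : ℕ => (p : ℤ) ∣ P.eval (n : ℤ)) (fun n => by
    have h1 : ((n : ℤ) - ((n % p : ℕ) : ℤ)) ∣ P.eval (n : ℤ) - P.eval ((n % p : ℕ) : ℤ) :=
      sub_dvd_eval_sub _ _ _
    have h2 : (p : ℤ) ∣ (n : ℤ) - ((n % p : ℕ) : ℤ) := by
      refine ⟨((n / p : ℕ) : ℤ), ?_⟩
      have h3 : ((p * (n / p) + n % p : ℕ) : ℤ) = (n : ℤ) := by rw [Nat.div_add_mod]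
      push_cast at h3 ⊢
      linarith
    exact (dvd_iff_dvd_of_dvd_sub (h2.trans h1)))
  have h' : ((range p).filter (fun n : ℕ => (p : ℤ) ∣ P.eval ((a + n : ℕ) : ℤ))).card =
      ((range p).filter (fun n : ℕ => (p : ℤ) ∣ P.eval (n : ℤ))).card := by convert h
  rw [h']

/-- **Almost prime values of polynomials in all short intervals, restricted digits.** -/
theorem int_poly (κ0 E : ℕ) (hκ0 : 1 ≤ κ0) :
    ∃ c : ℝ, 0 < c ∧ ∃ r0 : ℕ, 2 ≤ r0 ∧ ∀ r : ℕ, r0 ≤ r → ∀ b : ℕ, 2 ≤ b → ∃ κ C : ℝ, 0 < κ ∧ 0 < C ∧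
      ∀ᶠ y : ℕ in atTop, ∀ P : ℤ[X], P.natDegree ≤ κ0 →
        (∀ p : ℕ, p.Prime → ∃ n : ℕ, ¬ (p : ℤ) ∣ P.eval (n : ℤ)) →
        ∀ x : ℕ, (∀ m : ℕ, m < x + 2 * y → (P.eval (m : ℤ)).natAbs ≤ y ^ E) →
        ∀ K : ℕ, K = Nat.log b (y / 3) →
        ∀ A : ℕ → Finset ℕ, (∀ i < K, A i ⊆ range b) → (b : ℝ) ^ K ≤ Real.exp (c * K) * NA K A →
        ((∃ d ∈ A 0, (P.eval (d : ℤ)).natAbs.Coprime b) →
          κ * NA K A * WG (fun j : ℕ => P.eval (j : ℤ)) (b ^ K) ≤ DC b K A (PA P x y r (b ^ K))) ∧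
        (DC b K A (PR P x y r (b ^ K)) : ℝ) ≤ C * NA K A * WG (fun j : ℕ => P.eval (j : ℤ)) (b ^ K) := by
  classical
  obtain ⟨c, hc, r0, hr0, h⟩ := uni_fun κ0 (4 * E) hκ0
  refine ⟨c, hc, r0, hr0, fun r hr b hb => ?_⟩
  have h2r : 2 ≤ r := hr0.trans hr
  obtain ⟨κ, C, hκ, hC, h1⟩ := h r hr b hb
  refine ⟨κ, (3 * b + 2) * C, hκ, by positivity, ?_⟩
  obtain ⟨K0, hK0⟩ := eventually_atTop.1 h1
  filter_upwards [eventually_ge_atTop (3 * b ^ (K0 + 1))] with y hy P hdeg hadm x hsize K hK A hA hprod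
  obtain ⟨hKK, hb1, hb2⟩ := log_three hb (K0 + 1) hy hK
  have hb0 : 0 < b := by omega
  have hbK0 : 0 < b ^ K := by positivity
  have hNA := NA_nonneg K A
  have hW0 : 0 ≤ WG (fun j : ℕ => P.eval (j : ℤ)) (b ^ K) := WG_nonneg _ _
  have e1 : y ≤ b ^ (4 * K) := by
    calc y ≤ 3 * b * b ^ K := hb2
      _ ≤ b ^ 2 * b * b ^ K := by
          apply Nat.mul_le_mul_right
          apply Nat.mul_le_mul_right
          nlinarith
      _ = b ^ (K + 3) := by ring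
      _ ≤ b ^ (4 * K) := Nat.pow_le_pow_right hb0 (by omega)
  have e2 : y ^ E ≤ b ^ (4 * E * K) := by
    calc y ^ E ≤ (b ^ (4 * K)) ^ E := Nat.pow_le_pow_left e1 E
      _ = b ^ (4 * E * K) := by rw [← pow_mul]; congr 1; ring
  -- the theorem for one block
  have hblock : ∀ t : ℕ, b ^ K * t ≤ x + y →
      ((∃ d ∈ A 0, (P.eval (d : ℤ)).natAbs.Coprime b) →
        κ * NA K A * WG (fun j : ℕ => P.eval (j : ℤ)) (b ^ K) ≤
          ND b K A (Alm (fun j : ℕ => P.eval ((b ^ K * t + j : ℕ) : ℤ)) r (b ^ K))) ∧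
      (ND b K A (Rgh (fun j : ℕ => P.eval ((b ^ K * t + j : ℕ) : ℤ)) r) : ℝ) ≤
        C * NA K A * WG (fun j : ℕ => P.eval (j : ℤ)) (b ^ K) := by
    intro t ht
    obtain ⟨h2, h3⟩ := hK0 K (by omega) (fun j : ℕ => P.eval ((b ^ K * t + j : ℕ) : ℤ))
      ⟨P.comp (X + Polynomial.C ((b ^ K * t : ℕ) : ℤ)), by
        refine natDegree_comp_le.trans ?_
        rw [natDegree_X_add_C, mul_one]
        exact hdeg, fun n => by
        rw [eval_comp, eval_add, eval_X, eval_C]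
        congr 1
        push_cast
        ring⟩
      (fun p hp => by
        obtain ⟨n, hn⟩ := hadm p hp
        refine ⟨n + (p * (b ^ K * t) - b ^ K * t), fun hd => hn ?_⟩
        have h4 : b ^ K * t ≤ p * (b ^ K * t) := Nat.le_mul_of_pos_left _ hp.pos
        have h5 : b ^ K * t + (n + (p * (b ^ K * t) - b ^ K * t)) = n + p * (b ^ K * t) := by omega
        simp only [h5] at hd
        have h6 : (((n + p * (b ^ K * t) : ℕ) : ℤ) - (n : ℤ)) ∣
            P.eval ((n + p * (b ^ K * t) : ℕ) : ℤ) - P.eval (n : ℤ) := sub_dvd_eval_sub _ _ _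
        have h7 : (p : ℤ) ∣ ((n + p * (b ^ K * t) : ℕ) : ℤ) - (n : ℤ) := by
          refine ⟨((b ^ K * t : ℕ) : ℤ), ?_⟩
          push_cast
          ring
        exact (dvd_iff_dvd_of_dvd_sub (h7.trans h6)).1 hd)
      (fun n hn => (hsize _ (by omega)).trans e2) A hA hprod
    rw [WG_shift] at h2 h3
    refine ⟨?_, h3⟩
    rintro ⟨d, hd, hcop⟩
    refine h2 ⟨d, hd, ?_⟩
    obtain ⟨K', rfl⟩ : ∃ K', K = K' + 1 := ⟨K - 1, by omega⟩
    rw [Nat.coprime_iff_gcd_eq_one] at hcop ⊢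
    by_contra hg
    obtain ⟨q, hq, hqd⟩ := Nat.exists_prime_and_dvd hg
    have h4 : q ∣ b := hqd.trans (Nat.gcd_dvd_right _ _)
    have h5 : (q : ℤ) ∣ P.eval ((b ^ (K' + 1) * t + d : ℕ) : ℤ) :=
      Int.natCast_dvd.2 (hqd.trans (Nat.gcd_dvd_left _ _))
    have h6 : (((b ^ (K' + 1) * t + d : ℕ) : ℤ) - (d : ℤ)) ∣
        P.eval ((b ^ (K' + 1) * t + d : ℕ) : ℤ) - P.eval (d : ℤ) := sub_dvd_eval_sub _ _ _
    have h7 : (q : ℤ) ∣ ((b ^ (K' + 1) * t + d : ℕ) : ℤ) - (d : ℤ) := by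
      have h8 : ((b ^ (K' + 1) * t + d : ℕ) : ℤ) - (d : ℤ) = ((b * (b ^ K' * t) : ℕ) : ℤ) := by
        push_cast
        ring
      rw [h8]
      exact Int.natCast_dvd_natCast.2 (h4.mul_right _)
    have h9 : (q : ℤ) ∣ P.eval (d : ℤ) := (dvd_iff_dvd_of_dvd_sub (h7.trans h6)).1 h5
    have h10 : q ∣ Nat.gcd (P.eval (d : ℤ)).natAbs b := Nat.dvd_gcd (Int.natCast_dvd.1 h9) h4
    rw [hcop] at h10
    exact hq.one_lt.ne' (Nat.dvd_one.1 h10)
  have hfin : ∀ S : Set ℕ, (∀ m ∈ S, x < m ∧ m < x + y) → S.Finite := by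
    intro S hS
    apply (finite_toSet (Ioo x (x + y))).subset
    intro m hm
    rw [mem_coe, mem_Ioo]
    exact hS m hm
  constructor
  · intro hd
    have ht1 : x < b ^ K * (x / b ^ K + 1) := Nat.lt_mul_div_succ x hbK0
    have ht2 : b ^ K * (x / b ^ K + 1) ≤ x + b ^ K := by
      have := Nat.mul_div_le x (b ^ K)
      rw [mul_add, mul_one]
      omega
    obtain ⟨h2, -⟩ := hblock (x / b ^ K + 1) (by omega)
    refine (h2 hd).trans (Nat.cast_le.2 ?_)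
    refine (IC_lower (u := x) (v := x + y) (T := PA P x y r (b ^ K)) hb0 ht1 (by omega)
      (fun j hj hjS => ⟨⟨by omega, by omega⟩, hjS.1, hjS.2⟩)).trans ?_
    exact IC_le_DC (hfin _ fun m hm => hm.1) (fun m _ _ hm => hm)
  · have h3 : ∀ t ∈ Icc (x / b ^ K) ((x + y) / b ^ K),
        (ND b K A {j | b ^ K * t + j ∈ PR P x y r (b ^ K)} : ℝ) ≤
          C * NA K A * WG (fun j : ℕ => P.eval (j : ℤ)) (b ^ K) := by
      intro t ht
      rw [mem_Icc] at ht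
      have h4 : b ^ K * t ≤ x + y := (Nat.mul_le_mul_left _ ht.2).trans (Nat.mul_div_le _ _)
      obtain ⟨-, h5⟩ := hblock t h4
      refine le_trans ?_ h5
      apply Nat.cast_le.2
      apply ND_mono'
      intro j hj hjS p hp hd
      have h6 := hjS.2 p hp hd
      rwa [Nat.mul_add_mod, Nat.mod_eq_of_lt hj] at h6
    have h4 : ((Icc (x / b ^ K) ((x + y) / b ^ K)).card : ℝ) ≤ 3 * b + 2 := by
      rw [Nat.card_Icc]
      have h5 : (x + y) / b ^ K ≤ x / b ^ K + 3 * b + 1 := by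
        rw [← Nat.lt_succ_iff]
        apply Nat.div_lt_of_lt_mul
        have h6 := Nat.lt_mul_div_succ x hbK0
        have h7 : b ^ K * (x / b ^ K + 3 * b + 1).succ = b ^ K * (x / b ^ K + 1) + 3 * b * b ^ K + b ^ K := by
          rw [Nat.succ_eq_add_one]; ring
        rw [h7]
        omega
      have h6 : (x + y) / b ^ K + 1 - x / b ^ K ≤ 3 * b + 2 := by omega
      exact_mod_cast h6
    calc (DC b K A (PR P x y r (b ^ K)) : ℝ) ≤ IC b K A x (x + y) (PR P x y r (b ^ K)) :=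
          Nat.cast_le.2 (DC_le_IC fun m hm => ⟨hm.1, hm⟩)
      _ ≤ ((∑ t ∈ Icc (x / b ^ K) ((x + y) / b ^ K),
          ND b K A {j | b ^ K * t + j ∈ PR P x y r (b ^ K)} : ℕ) : ℝ) :=
          Nat.cast_le.2 (IC_upper hb0 A x (x + y) _)
      _ = ∑ t ∈ Icc (x / b ^ K) ((x + y) / b ^ K),
          (ND b K A {j | b ^ K * t + j ∈ PR P x y r (b ^ K)} : ℝ) := Nat.cast_sum _ _
      _ ≤ (Icc (x / b ^ K) ((x + y) / b ^ K)).card •
          (C * NA K A * WG (fun j : ℕ => P.eval (j : ℤ)) (b ^ K)) := sum_le_card_nsmul _ _ _ h3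
      _ = (Icc (x / b ^ K) ((x + y) / b ^ K)).card *
          (C * NA K A * WG (fun j : ℕ => P.eval (j : ℤ)) (b ^ K)) := nsmul_eq_mul _ _
      _ ≤ (3 * b + 2) * (C * NA K A * WG (fun j : ℕ => P.eval (j : ℤ)) (b ^ K)) :=
          mul_le_mul_of_nonneg_right h4 (by positivity)
      _ = _ := by ring

end Pool.Agent.X37.RD
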