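import Pool.Agent.TH101.RG.Sh
import Pool.Agent.H442R2.KF.Pc
import Pool.Agent.H256R2.SC.G1

/-!
# Rankin's covering with several prescribed positions left uncovered
-/

set_option autoImplicit false

namespace Pool.Agent.X37.RD

open Finset Filter Pool.Agent.TH101.RG

/-- greedy choice of an injection -/
lemma greedy (K : ℕ) (P : Finset ℕ) (bad : ℕ → Finset ℕ) (S : Finset ℕ) (hb : ∀ k ∈ S, (bad k).card ≤ K)
    (h : S.card + K ≤ P.card) : ∃ f : ℕ → ℕ, Set.InjOn f S ∧ ∀ k ∈ S, f k ∈ P ∧ f k ∉ bad k := by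
  classical
  induction S using Finset.induction_on with
  | empty => exact ⟨id, by simp, by simp⟩
  | insert a S ha ih =>
    rw [card_insert_of_notMem ha] at h
    obtain ⟨f, hf1, hf2⟩ := ih (fun k hk => hb k (mem_insert_of_mem hk)) (by omega)
    have hlt : (S.image f ∪ bad a).card < P.card := by
      refine lt_of_le_of_lt (card_union_le _ _) ?_
      have h1 : (S.image f).card ≤ S.card := card_image_le
      have h2 := hb a (mem_insert_self _ _)
      omega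
    obtain ⟨p, hp, hpn⟩ : ∃ p ∈ P, p ∉ S.image f ∪ bad a := by
      by_contra hcon
      push Not at hcon
      exact absurd (card_le_card (fun p hp => hcon p hp)) (not_le.2 hlt)
    rw [mem_union, not_or] at hpn
    refine ⟨Function.update f a p, ?_, ?_⟩
    · intro k hk l hl hkl
      rw [mem_coe, mem_insert] at hk hl
      rcases hk with rfl | hk
      · rcases hl with rfl | hl
        · rfl
        · exfalso
          have hne : l ≠ k := fun h => ha (h ▸ hl)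
          rw [Function.update_self, Function.update_of_ne hne] at hkl
          exact hpn.1 (mem_image.2 ⟨l, hl, hkl.symm⟩)
      · have hnk : k ≠ a := fun h => ha (h ▸ hk)
        rcases hl with rfl | hl
        · exfalso
          rw [Function.update_self, Function.update_of_ne hnk] at hkl
          exact hpn.1 (mem_image.2 ⟨k, hk, hkl⟩)
        · have hnl : l ≠ a := fun h => ha (h ▸ hl)
          rw [Function.update_of_ne hnk, Function.update_of_ne hnl] at hkl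
          exact hf1 hk hl hkl
    · intro k hk
      rw [mem_insert] at hk
      rcases hk with rfl | hk
      · rw [Function.update_self]
        exact ⟨hp, hpn.2⟩
      · have hnk : k ≠ a := fun h => ha (h ▸ hk)
        rw [Function.update_of_ne hnk]
        exact hf2 k hk

lemma sum_union_le1 {s t : Finset ℕ} (f : ℕ → ℝ) (hf : ∀ i, 0 ≤ f i) :
    ∑ i ∈ s ∪ t, f i ≤ ∑ i ∈ s, f i + ∑ i ∈ t, f i := by
  classical
  have h := sum_union_inter (s₁ := s) (s₂ := t) (f := f)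
  have h2 : 0 ≤ ∑ i ∈ s ∩ t, f i := sum_nonneg fun i _ => hf i
  linarith

lemma sum_biUnion_le1 {ι : Type} [DecidableEq ι] (s : Finset ι) (t : ι → Finset ℕ) (f : ℕ → ℝ)
    (hf : ∀ i, 0 ≤ f i) : ∑ i ∈ s.biUnion t, f i ≤ ∑ j ∈ s, ∑ i ∈ t j, f i := by
  classical
  induction s using Finset.induction_on with
  | empty => simp
  | insert a s ha ih =>
    rw [biUnion_insert, sum_insert ha]
    exact (sum_union_le1 f hf).trans (by linarith)

/-- the asymptotic facts -/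
lemma rfacts (c : ℝ) (hc : 0 < c) (K : ℕ) : ∀ᶠ y : ℝ in atTop, 3 ≤ Real.log y ∧ 1 ≤ Real.log (Real.log (Real.log y)) ∧
    1 ≤ Real.log (Real.log y) ∧
    2 ≤ c * Real.log y * Real.log (Real.log (Real.log y)) / (Real.log (Real.log y)) ^ 2 ∧
    (K : ℝ) + 1 ≤ y / (4 * Real.log y) := by
  have t1 := Real.tendsto_log_atTop
  have t2 : Tendsto (fun y : ℝ => Real.log (Real.log y)) atTop atTop := t1.comp t1
  have t3 : Tendsto (fun y : ℝ => Real.log (Real.log (Real.log y))) atTop atTop := t1.comp t2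
  have h1 := (Real.isLittleO_pow_log_id_atTop (n := 2)).def (show (0 : ℝ) < c / 2 by positivity)
  have h2 := (Real.isLittleO_pow_log_id_atTop (n := 1)).def (show (0 : ℝ) < 1 / (4 * (K + 1)) by positivity)
  filter_upwards [t1.eventually_ge_atTop 3, t3.eventually_ge_atTop 1, t2.eventually_ge_atTop 1, t1.eventually h1, h2,
    eventually_ge_atTop 1] with y g1 g2 g3 g4 g5 g6
  refine ⟨g1, g2, g3, ?_, ?_⟩
  · rw [Real.norm_of_nonneg (by positivity), id, Real.norm_of_nonneg (by linarith)] at g4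
    rw [le_div_iff₀ (by positivity)]
    have g7 : c * Real.log y * 1 ≤ c * Real.log y * Real.log (Real.log (Real.log y)) :=
      mul_le_mul_of_nonneg_left g2 (by positivity)
    linarith
  · rw [pow_one, Real.norm_of_nonneg (by linarith), id, Real.norm_of_nonneg (by linarith)] at g5
    rw [le_div_iff₀ (by positivity)]
    rw [div_mul_eq_mul_div, one_mul, le_div_iff₀ (by positivity)] at g5
    linarith

/-- **Covering.** All positions up to `H`, the positions `τ j` excepted, are covered by primes `≤ 2 y`. -/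
theorem rankinK (K : ℕ) : ∃ c : ℝ, 0 < c ∧ ∃ y₀ : ℕ, ∀ y : ℕ, y₀ ≤ y → ∀ τ : Fin K → ℕ,
    (∀ p : ℕ, p.Prime → ∃ a : ℕ, ∀ j, ¬ p ∣ a + τ j) → ∀ H : ℕ,
    (H : ℝ) ≤ c * y * Real.log y * Real.log (Real.log (Real.log y)) / (Real.log (Real.log y)) ^ 2 →
    (∀ j, τ j ≤ H) →
    ∃ n₀ : ℕ, n₀ < primorial (2 * y) ∧ (∀ p : ℕ, p.Prime → p ≤ 2 * y → ∀ j, ¬ p ∣ n₀ + τ j) ∧
      ∀ s ≤ H, (∀ j, s ≠ τ j) → ∃ p : ℕ, p.Prime ∧ p ≤ 2 * y ∧ p ∣ n₀ + s := by
  classical
  obtain ⟨C, hC, y₁, hsurv⟩ := rsurvK K (3 * (K : ℝ) ^ 2) (3 * (K : ℝ) ^ 2) (by positivity)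
  obtain ⟨y₂, hshift⟩ := shift_exK K
  obtain ⟨y₃, -, hPL⟩ := Pool.Agent.H442R2.KF.TaskPC.large
  obtain ⟨c, hcdef⟩ : ∃ c : ℝ, c = 1 / (8 * (C + 1)) := ⟨_, rfl⟩
  have hc : 0 < c := by rw [hcdef]; positivity
  have hc1 : c ≤ 1 := by
    rw [hcdef, div_le_one (by positivity)]
    linarith
  obtain ⟨x₀, hx₀⟩ := eventually_atTop.1 (rfacts c hc K)
  refine ⟨c, hc, max (max y₁ y₂) (max (max y₃ 3) ⌈x₀⌉₊), fun y hy τ hadm H hH hτ => ?_⟩
  simp only [max_le_iff] at hy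
  obtain ⟨⟨hy1, hy2⟩, ⟨hy3, hy33⟩, hyx⟩ := hy
  have hyR : (3 : ℝ) ≤ y := by exact_mod_cast hy33
  obtain ⟨f1, f2, f3, f4, f5⟩ := hx₀ (y : ℝ) ((Nat.le_ceil _).trans (by exact_mod_cast hyx))
  obtain ⟨u, hu⟩ : ∃ u, u = Real.log y := ⟨_, rfl⟩
  obtain ⟨v, hv⟩ : ∃ v, v = Real.log (Real.log y) := ⟨_, rfl⟩
  obtain ⟨w, hw⟩ : ∃ w, w = Real.log (Real.log (Real.log y)) := ⟨_, rfl⟩
  have hwv : w ≤ v := by
    rw [hw, hv]
    exact Real.log_le_self (by linarith)
  rw [← hw, ← hv, ← hu] at hH f4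
  rw [← hu] at f1 f5
  rw [← hw] at f2
  rw [← hv] at f3
  have hu0 : 0 < u := by linarith
  have hv0 : 0 < v := by linarith
  have hw0 : 0 < w := by linarith
  -- the length
  obtain ⟨M, hM⟩ : ∃ M : ℝ, M = c * u * w / v ^ 2 := ⟨_, rfl⟩
  have hHM : (H : ℝ) ≤ y * M := by
    rw [hM]
    calc (H : ℝ) ≤ c * y * u * w / v ^ 2 := hH
      _ = y * (c * u * w / v ^ 2) := by ring
  rw [← hM] at f4
  have hH2 : ((H + 2 * y : ℕ) : ℝ) ≤ 2 * (y * M) := by
    push_cast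
    nlinarith
  have hMu : M ≤ u := by
    rw [hM, div_le_iff₀ (by positivity)]
    calc c * u * w ≤ 1 * u * v := by gcongr
      _ ≤ u * v ^ 2 := by
          have h1 : v ≤ v ^ 2 := by nlinarith
          have h2 := mul_le_mul_of_nonneg_left h1 hu0.le
          linarith
  -- the shift
  obtain ⟨s₀, hs₀, hsum⟩ := hshift y hy2 y le_rfl (fun j => ((τ j + y : ℕ) : ℤ))
  obtain ⟨w₀, hw₀⟩ : ∃ w₀ : ℕ, w₀ = y - s₀ := ⟨_, rfl⟩
  have hBs : ∀ j, (((τ j + y : ℕ) : ℤ)) - s₀ = ((τ j + w₀ : ℕ) : ℤ) := by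
    intro j
    rw [hw₀]
    push_cast [Nat.cast_sub hs₀.le]
    ring
  -- the exceptional primes
  obtain ⟨F, hF⟩ : ∃ F : Finset ℕ, F = (Icc 1 y).filter (fun p => p.Prime ∧ ∃ j, p ∣ τ j + w₀) := ⟨_, rfl⟩
  have hFmem : ∀ p, p ∈ F ↔ (1 ≤ p ∧ p ≤ y) ∧ p.Prime ∧ ∃ j, p ∣ τ j + w₀ := by
    intro p
    rw [hF, mem_filter, mem_Icc]
  have hFp : ∀ q ∈ F, q.Prime := fun q hq => ((hFmem q).1 hq).2.1
  have hFsum : ∑ q ∈ F, (1 : ℝ) / q ≤ 3 * (K : ℝ) ^ 2 := by
    have hsub : F ⊆ (univ : Finset (Fin K)).biUnion (fun j =>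
        (Icc 1 y).filter (fun p : ℕ => p.Prime ∧ (p : ℤ) ∣ ((τ j + y : ℕ) : ℤ) - s₀)) := by
      intro p hp
      obtain ⟨hp1, hp2, j, hj⟩ := (hFmem p).1 hp
      rw [mem_biUnion]
      refine ⟨j, mem_univ _, ?_⟩
      rw [mem_filter, mem_Icc]
      refine ⟨hp1, hp2, ?_⟩
      rw [hBs]
      exact Int.natCast_dvd_natCast.2 hj
    calc ∑ q ∈ F, (1 : ℝ) / q ≤ ∑ q ∈ (univ : Finset (Fin K)).biUnion (fun j =>
        (Icc 1 y).filter (fun p : ℕ => p.Prime ∧ (p : ℤ) ∣ ((τ j + y : ℕ) : ℤ) - s₀)), (1 : ℝ) / q :=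
          sum_le_sum_of_subset_of_nonneg hsub (fun _ _ _ => by positivity)
      _ ≤ ∑ j : Fin K, ∑ q ∈ (Icc 1 y).filter (fun p : ℕ => p.Prime ∧ (p : ℤ) ∣ ((τ j + y : ℕ) : ℤ) - s₀),
          (1 : ℝ) / q := by
          exact sum_biUnion_le1 _ _ _ (fun _ => by positivity)
      _ ≤ ∑ _j : Fin K, 3 * (K : ℝ) := sum_le_sum (fun j _ => (hsum j).1)
      _ = 3 * (K : ℝ) ^ 2 := by
          rw [sum_const, card_univ, Fintype.card_fin, nsmul_eq_mul]
          ring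
  have hFtail : ∑ q ∈ F.filter (fun q : ℕ => V0 y < Real.log q), (1 : ℝ) / q ≤ 3 * (K : ℝ) ^ 2 / Real.log y := by
    have hsub : F.filter (fun q : ℕ => V0 y < Real.log q) ⊆ (univ : Finset (Fin K)).biUnion (fun j =>
        (Icc 1 y).filter (fun p : ℕ => p.Prime ∧ (p : ℤ) ∣ ((τ j + y : ℕ) : ℤ) - s₀ ∧ V0 y < Real.log p)) := by
      intro p hp
      rw [mem_filter] at hp
      obtain ⟨hp1, hp2, j, hj⟩ := (hFmem p).1 hp.1
      rw [mem_biUnion]
      refine ⟨j, mem_univ _, ?_⟩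
      rw [mem_filter, mem_Icc]
      refine ⟨hp1, hp2, ?_, hp.2⟩
      rw [hBs]
      exact Int.natCast_dvd_natCast.2 hj
    calc ∑ q ∈ F.filter (fun q : ℕ => V0 y < Real.log q), (1 : ℝ) / q ≤
        ∑ q ∈ (univ : Finset (Fin K)).biUnion (fun j =>
        (Icc 1 y).filter (fun p : ℕ => p.Prime ∧ (p : ℤ) ∣ ((τ j + y : ℕ) : ℤ) - s₀ ∧ V0 y < Real.log p)),
          (1 : ℝ) / q := sum_le_sum_of_subset_of_nonneg hsub (fun _ _ _ => by positivity)
      _ ≤ ∑ j : Fin K, ∑ q ∈ (Icc 1 y).filter (fun p : ℕ => p.Prime ∧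
          (p : ℤ) ∣ ((τ j + y : ℕ) : ℤ) - s₀ ∧ V0 y < Real.log p), (1 : ℝ) / q := by
          exact sum_biUnion_le1 _ _ _ (fun _ => by positivity)
      _ ≤ ∑ _j : Fin K, 3 * (K : ℝ) / Real.log y := sum_le_sum (fun j _ => (hsum j).2)
      _ = 3 * (K : ℝ) ^ 2 / Real.log y := by
          rw [sum_const, card_univ, Fintype.card_fin, nsmul_eq_mul]
          ring
  -- the residue classes modulo the primes up to `y`
  obtain ⟨b, hb1, hb2⟩ := hsurv y hy1 F hFp hFsum hFtail (H + 2 * y) (by omega) (by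
      refine hH2.trans ?_
      rw [← hu]
      have h1 : 2 * ((y : ℝ) * M) ≤ 2 * (y * u) := by gcongr
      have h2 : 2 * ((y : ℝ) * u) ≤ y * u ^ 2 := by
        have h3 : 2 * u ≤ u ^ 2 := by nlinarith
        have h4 := mul_le_mul_of_nonneg_left h3 (by linarith : (0 : ℝ) ≤ y)
        linarith
      linarith) (fun j _ => τ j + w₀) (by
      intro j p hp hpy hpF _ hd
      exact hpF ((hFmem p).2 ⟨⟨hp.pos, hpy⟩, hp, j, hd⟩))
  rw [← hw, ← hv, ← hu] at hb2
  obtain ⟨S, hS⟩ : ∃ S : Finset ℕ, S = ((range (H + 2 * y + 1)).filter (fun k => ∀ p : ℕ, p.Prime → p ≤ y → p ∉ F →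
        ¬ k ≡ b p [MOD p])).filter (fun k => ∀ j, k ≠ τ j + w₀) := ⟨_, rfl⟩
  have hScard : (S.card : ℝ) ≤ y / (4 * u) := by
    have h1 : (S.card : ℝ) ≤ C * ((H + 2 * y : ℕ) : ℝ) * v ^ 2 / (u ^ 2 * w) := by
      refine le_trans ?_ hb2
      rw [hS]
      exact_mod_cast card_filter_le _ _
    refine h1.trans ?_
    rw [div_le_div_iff₀ (by positivity) (by positivity)]
    have h2 : M * v ^ 2 = c * u * w := by
      rw [hM]
      field_simp
    have h3 : C * c ≤ 1 / 8 := by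
      rw [hcdef, mul_one_div, div_le_div_iff₀ (by positivity) (by norm_num)]
      linarith
    calc C * ((H + 2 * y : ℕ) : ℝ) * v ^ 2 * (4 * u) ≤ C * (2 * (y * M)) * v ^ 2 * (4 * u) := by gcongr
      _ = 8 * C * y * u * (M * v ^ 2) := by ring
      _ = 8 * (C * c) * (y * (u ^ 2 * w)) := by rw [h2]; ring
      _ ≤ 8 * (1 / 8) * (y * (u ^ 2 * w)) := by
          apply mul_le_mul_of_nonneg_right _ (by positivity)
          linarith
      _ = y * (u ^ 2 * w) := by ring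
  -- the primes in `(y, 2 y]`
  obtain ⟨P, hP⟩ : ∃ P : Finset ℕ, P = Pool.Agent.H442R2.KF.PL y := ⟨_, rfl⟩
  have hPmem : ∀ p ∈ P, p.Prime ∧ y < p ∧ p ≤ 2 * y := by
    intro p hp
    rw [hP] at hp
    simp only [Pool.Agent.H442R2.KF.PL, mem_filter, mem_Ioc] at hp
    exact ⟨hp.2, hp.1.1, hp.1.2⟩
  have hPcard : S.card + K ≤ P.card := by
    have h1 := hPL y hy3
    rw [← hP, ← hu] at h1
    have h2 : (S.card : ℝ) + K ≤ P.card := by
      have h3 : (y : ℝ) / (4 * u) + y / (4 * u) = y / (2 * u) := by field_simp; ring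
      linarith
    exact_mod_cast h2
  -- the bad primes
  obtain ⟨bad, hbad⟩ : ∃ bad : ℕ → Finset ℕ, bad = fun k : ℕ => (univ : Finset (Fin K)).biUnion (fun j =>
      P.filter (fun p : ℕ => (p : ℤ) ∣ (k : ℤ) - (τ j + w₀ : ℕ))) := ⟨_, rfl⟩
  have hw₀y : w₀ ≤ y := by omega
  have hyu : 4 * u ≤ (y : ℝ) := by
    have h1 : (1 : ℝ) ≤ y / (4 * u) := le_trans (by
      have : (0 : ℝ) ≤ K := Nat.cast_nonneg K
      linarith) f5
    rw [le_div_iff₀ (by positivity)] at h1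
    linarith
  have hbadc : ∀ k ∈ S, (bad k).card ≤ K := by
    intro k hk
    rw [hS, mem_filter, mem_filter, mem_range] at hk
    rw [hbad]
    refine card_biUnion_le.trans ?_
    have h1 : ∀ j ∈ (univ : Finset (Fin K)),
        (P.filter (fun p : ℕ => (p : ℤ) ∣ (k : ℤ) - (τ j + w₀ : ℕ))).card ≤ 1 := by
      intro j _
      rw [card_le_one]
      intro p hp q hq
      rw [mem_filter] at hp hq
      by_contra hpq
      obtain ⟨hp1, hp2, hp3⟩ := hPmem p hp.1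
      obtain ⟨hq1, hq2, hq3⟩ := hPmem q hq.1
      have hcop : IsCoprime (p : ℤ) (q : ℤ) := by
        rw [Nat.isCoprime_iff_coprime]
        exact (Nat.coprime_primes hp1 hq1).2 hpq
      have h2 : (p : ℤ) * q ∣ (k : ℤ) - (τ j + w₀ : ℕ) := hcop.mul_dvd hp.2 hq.2
      have h3 : (k : ℤ) - (τ j + w₀ : ℕ) ≠ 0 := by
        intro h
        apply hk.2 j
        omega
      have h4 := Int.le_of_dvd (abs_pos.2 h3) ((dvd_abs _ _).2 h2)
      have h5 : |(k : ℤ) - (τ j + w₀ : ℕ)| ≤ H + 2 * y := by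
        have := hτ j
        rw [abs_le]
        push_cast
        constructor <;> omega
      have h6 : (y : ℤ) * y < p * q := by
        have a1 : (y : ℤ) < p := by exact_mod_cast hp2
        have a2 : (y : ℤ) < q := by exact_mod_cast hq2
        have a3 : (0 : ℤ) ≤ y := by positivity
        nlinarith
      have h7 : ((H : ℤ) + 2 * y) < (y : ℤ) * y := by
        have h8 : (H : ℝ) + 2 * y < (y : ℝ) * y := by
          push_cast at hH2
          have h9 : 2 * ((y : ℝ) * M) ≤ 2 * (y * u) := by gcongr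
          nlinarith
        exact_mod_cast h8
      linarith
    refine (Finset.sum_le_card_nsmul _ _ 1 h1).trans ?_
    rw [card_univ, Fintype.card_fin, smul_eq_mul, mul_one]
  obtain ⟨f, hf1, hf2⟩ := greedy K P bad S hbadc hPcard
  -- the residues
  choose a ha using hadm
  obtain ⟨ρ, hρ⟩ : ∃ ρ : ℕ → ℕ, ρ = fun p => if hp : p.Prime then
      (if p ≤ y ∧ p ∉ F then w₀ + (p - b p) else
        if h : ∃ k ∈ S, f k = p then w₀ + h.choose * (p - 1) else a p hp) else 0 := ⟨_, rfl⟩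
  obtain ⟨n₀, hn₀, hn₁⟩ := Pool.Agent.H256R2.SC.LG.exists_crt (2 * y) ρ
  have hρ1 : ∀ p (hp : p.Prime), p ≤ y → p ∉ F → ρ p = w₀ + (p - b p) := by
    intro p hp h1 h2
    rw [hρ]
    simp only [dif_pos hp, if_pos (show p ≤ y ∧ p ∉ F from ⟨h1, h2⟩)]
  have hρ2 : ∀ k ∈ S, ρ (f k) = w₀ + k * (f k - 1) := by
    intro k hk
    obtain ⟨h1, h2, h3⟩ := hPmem (f k) (hf2 k hk).1
    have hex : ∃ l ∈ S, f l = f k := ⟨k, hk, rfl⟩
    have h4 : hex.choose = k := hf1 hex.choose_spec.1 hk hex.choose_spec.2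
    rw [hρ]
    have h5 : ¬ (f k ≤ y ∧ f k ∉ F) := fun h => absurd h.1 (not_le.2 h2)
    simp only [dif_pos h1, if_neg h5, dif_pos hex, h4]
  have hcong : ∀ (p : ℕ) (t : ℕ), p.Prime → p ≤ 2 * y → (p ∣ n₀ + t ↔ p ∣ ρ p + t) := by
    intro p t hp hpy
    have h1 := hn₁ p hp hpy
    exact (h1.add_right t).dvd_iff (dvd_refl p)
  refine ⟨n₀, hn₀, ?_, ?_⟩
  · intro p hp hpy j
    rw [hcong p _ hp hpy]
    by_cases h1 : p ≤ y ∧ p ∉ F
    · obtain ⟨h2, h3⟩ := hb1 p hp h1.1 h1.2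
      rw [hρ1 p hp h1.1 h1.2]
      intro hd
      apply h3 j
      -- `p ∣ τ j + w₀ - b p`
      have h4 : w₀ + (p - b p) + τ j + b p = (τ j + w₀) + p := by omega
      have h5 : (w₀ + (p - b p) + τ j) + b p ≡ 0 + b p [MOD p] :=
        Nat.ModEq.add_right _ ((Nat.modEq_zero_iff_dvd).2 hd)
      rw [h4, zero_add] at h5
      have h6 : (τ j + w₀) + p ≡ τ j + w₀ [MOD p] := Nat.add_modEq_right
      exact h6.symm.trans h5
    · by_cases h2 : ∃ k ∈ S, f k = p
      · obtain ⟨k, hk, rfl⟩ := h2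
        rw [hρ2 k hk]
        intro hd
        apply (hf2 k hk).2
        rw [hbad]
        rw [mem_biUnion]
        refine ⟨j, mem_univ _, ?_⟩
        rw [mem_filter]
        refine ⟨(hf2 k hk).1, ?_⟩
        have h3 : ((f k : ℕ) : ℤ) ∣ ((w₀ + k * (f k - 1) + τ j : ℕ) : ℤ) := Int.natCast_dvd_natCast.2 hd
        have h4 : ((w₀ + k * (f k - 1) + τ j : ℕ) : ℤ) = (k : ℤ) * (f k : ℕ) - ((k : ℤ) - (τ j + w₀ : ℕ)) := by
          have := hp.one_le
          push_cast [Nat.cast_sub this]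
          ring
        rw [h4] at h3
        have h5 := dvd_sub (Dvd.intro_left (k : ℤ) rfl : ((f k : ℕ) : ℤ) ∣ (k : ℤ) * (f k : ℕ)) h3
        rwa [sub_sub_cancel] at h5
      · have h3 : ρ p = a p hp := by
          rw [hρ]
          simp only [dif_pos hp, if_neg h1, dif_neg h2]
        rw [h3]
        exact ha p hp j
  · intro s hs hsτ
    have hk1 : s + w₀ ≤ H + 2 * y := by omega
    by_cases h1 : ∃ p : ℕ, p.Prime ∧ p ≤ y ∧ p ∉ F ∧ s + w₀ ≡ b p [MOD p]
    · obtain ⟨p, hp, hpy, hpF, hmod⟩ := h1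
      refine ⟨p, hp, by omega, ?_⟩
      rw [hcong p _ hp (by omega), hρ1 p hp hpy hpF]
      obtain ⟨h2, -⟩ := hb1 p hp hpy hpF
      have h4 : w₀ + (p - b p) + s + b p = (s + w₀) + p := by omega
      have h5 : (w₀ + (p - b p) + s) + b p ≡ 0 + b p [MOD p] := by
        rw [h4, zero_add]
        exact (Nat.add_modEq_right : (s + w₀) + p ≡ s + w₀ [MOD p]).trans hmod
      exact (Nat.modEq_zero_iff_dvd).1 (Nat.ModEq.add_right_cancel' _ h5)
    · push Not at h1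
      have hkS : s + w₀ ∈ S := by
        rw [hS, mem_filter, mem_filter, mem_range]
        refine ⟨⟨by omega, h1⟩, fun j h => hsτ j (by omega)⟩
      obtain ⟨h2, h3, h4⟩ := hPmem _ (hf2 _ hkS).1
      refine ⟨f (s + w₀), h2, h4, ?_⟩
      rw [hcong _ _ h2 h4, hρ2 _ hkS]
      have h5 := h2.one_le
      refine ⟨s + w₀, ?_⟩
      obtain ⟨q, hq⟩ : ∃ q, f (s + w₀) = q + 1 := ⟨f (s + w₀) - 1, by omega⟩
      rw [hq, Nat.add_sub_cancel]
      ring

end Pool.Agent.X37.RD
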